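import Pool.Agent.Run7.h460.JR.UniR

/-!
# The condition on the function is necessary

If the probabilities `p s` sum to one, then for every `η > 0` there is a set `A` of lower density at least
`1 - η` such that the numbers `g (U D + m)`, `D ∈ A`, are bounded for every allowed sum `m` of classes.
So a function `f` is realised in all the sets of positive upper density only if the numbers
`f (S ∪ {k})` are bounded.
-/

set_option autoImplicit false

open scoped Classical

namespace Run7.h460.JR.UniR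

open Finset Filter Topology
open Run7.h460.JL.Mix
open Run7.h460.JL.Uni (Large tr card_tr mem_tr ext)

variable {α V : Type*} [AddCommGroup V]
variable {S : ℕ → Finset α} {U : α → V} {g : V → ℕ} {ok : V → Prop} {p : ℕ → ℝ}

/-- large values are rare -/
theorem Law.rare (h : Law S U g ok p) (hp : HasSum p 1) {m : V} (hm : ok m) {η : ℝ} (hη : 0 < η) :
    ∃ k X₀ : ℕ, ∀ X, X₀ ≤ X → cn (S X) {D | k ≤ g (U D + m)} ≤ η * ((S X).card : ℝ) := by
  obtain ⟨k, hk⟩ : ∃ k : ℕ, 1 - η < ∑ s ∈ range k, p s :=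
    ((hp.tendsto_sum_nat).eventually (lt_mem_nhds (show 1 - η < 1 by linarith))).exists
  have h1 : ∀ s : ℕ, Tendsto (fun X => cn (S X) {D | g (U D + m) = s} / ((S X).card : ℝ)) atTop
      (𝓝 (p s)) := by
    intro s
    have h2 := h.law {m} (fun _ => s) (fun v hv => by rw [mem_singleton.1 hv]; exact hm)
    rw [prod_singleton] at h2
    refine h2.congr fun X => ?_
    congr 2
    ext D
    simp only [Set.mem_ofPred_eq, mem_singleton, forall_eq]
  have h2 := (tendsto_finsetSum (range k) fun s _ => h1 s).eventually (lt_mem_nhds hk)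
  obtain ⟨X₀, hX₀⟩ := eventually_atTop.1 (h2.and h.ne)
  refine ⟨k, X₀, fun X hX => ?_⟩
  obtain ⟨h3, h4⟩ := hX₀ X hX
  have hc : (0 : ℝ) < ((S X).card : ℝ) := by exact_mod_cast h4.card_pos
  rw [← sum_div, lt_div_iff₀ hc] at h3
  have h5 : ∑ s ∈ range k, cn (S X) {D | g (U D + m) = s} +
      cn (S X) {D | k ≤ g (U D + m)} = ((S X).card : ℝ) := by
    have h6 : ∀ s, cn (S X) {D | g (U D + m) = s} =
        (((S X).filter fun D => g (U D + m) = s).card : ℝ) := fun s =>
      cn_eq _ _ _ fun D _ => Iff.rfl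
    have h7 : cn (S X) {D | k ≤ g (U D + m)} =
        (((S X).filter fun D => ¬ g (U D + m) < k).card : ℝ) :=
      cn_eq _ _ _ fun D _ => by rw [Set.mem_ofPred_eq, not_lt]
    have h8 : ((S X).filter fun D => g (U D + m) < k).card =
        ∑ s ∈ range k, ((S X).filter fun D => g (U D + m) = s).card := by
      rw [card_eq_sum_card_fiberwise (f := fun D => g (U D + m)) (t := range k) fun D hD => by
        rw [mem_coe, mem_range]
        exact (mem_filter.1 hD).2]
      refine sum_congr rfl fun s hs => ?_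
      rw [filter_filter]
      congr 1
      refine filter_congr fun D _ => ⟨fun h => h.2, fun h => ⟨?_, h⟩⟩
      rw [h]
      exact mem_range.1 hs
    simp only [h6]
    rw [h7, ← Nat.cast_sum, ← h8, ← Nat.cast_add, card_filter_add_card_filter_not]
  nlinarith

/-- **A set of lower density at least `1 - η` on which the numbers are bounded.** -/
theorem Law.exists_bdd (h : Law S U g ok p) (hp : HasSum p 1) (hmono : Monotone S) (M : ℕ → V)
    {η : ℝ} (hη : 0 < η) : ∃ A : Set α,
      (∀ X, (1 - η) * ((S X).card : ℝ) ≤ cn (S X) A) ∧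
      ∀ i, ok (M i) → ∃ B : ℕ, ∀ D ∈ A, (∃ X, D ∈ S X) → g (U D + M i) ≤ B := by
  have hex : ∀ i, ∃ k X₀ : ℕ, ok (M i) → ∀ X, X₀ ≤ X →
      cn (S X) {D | k ≤ g (U D + M i)} ≤ η / 2 / 2 ^ i * ((S X).card : ℝ) := by
    intro i
    by_cases hi : ok (M i)
    · obtain ⟨k, X₀, h1⟩ := h.rare hp hi (η := η / 2 / 2 ^ i) (by positivity)
      exact ⟨k, X₀, fun _ => h1⟩
    · exact ⟨0, 0, fun h => absurd h hi⟩
  choose k X₀ hk using hex
  obtain ⟨Z, hZ⟩ : ∃ Z : ℕ → Set α, ∀ i, Z i =
      {D | ok (M i) ∧ D ∉ S (X₀ i) ∧ k i ≤ g (U D + M i)} := ⟨_, fun _ => rfl⟩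
  have hZle : ∀ i X, cn (S X) (Z i) ≤ η / 2 / 2 ^ i * ((S X).card : ℝ) := by
    intro i X
    by_cases hi : ok (M i)
    · rcases le_total (X₀ i) X with h1 | h1
      · refine (cn_mono (S X) ?_).trans (hk i hi X h1)
        rw [hZ]
        exact fun D hD => hD.2.2
      · have h2 : cn (S X) (Z i) = 0 := by
          unfold cn
          rw [filter_false_of_mem, card_empty, Nat.cast_zero]
          intro D hD hD'
          rw [hZ] at hD'
          exact hD'.2.1 (hmono h1 hD)
        rw [h2]
        positivity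
    · have h2 : cn (S X) (Z i) = 0 := by
        unfold cn
        rw [filter_false_of_mem, card_empty, Nat.cast_zero]
        intro D hD hD'
        rw [hZ] at hD'
        exact hi hD'.1
      rw [h2]
      positivity
  refine ⟨{D | ∀ i, D ∉ Z i}, fun X => ?_, fun i hi => ?_⟩
  · -- the elements outside `A`
    have h1 : ∀ D : α, ∃ i : ℕ, (∃ i, D ∈ Z i) → D ∈ Z i := by
      intro D
      by_cases hD : ∃ i, D ∈ Z i
      · exact ⟨hD.choose, fun _ => hD.choose_spec⟩
      · exact ⟨0, fun h => absurd h hD⟩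
    choose w hw using h1
    obtain ⟨N, hN⟩ : ∃ N : ℕ, ∀ D ∈ S X, w D < N :=
      ⟨(S X).sup w + 1, fun D hD => Nat.lt_succ_of_le (Finset.le_sup hD)⟩
    have h2 : ((S X).filter fun D => ¬ D ∈ {D | ∀ i, D ∉ Z i}) ⊆
        (range N).biUnion fun i => (S X).filter fun D => D ∈ Z i := by
      intro D hD
      obtain ⟨h3, h4⟩ := mem_filter.1 hD
      have h5 : ∃ i, D ∈ Z i := by
        by_contra hcon
        push Not at hcon
        exact h4 hcon
      rw [mem_biUnion]
      exact ⟨w D, mem_range.2 (hN D h3), mem_filter.2 ⟨h3, hw D h5⟩⟩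
    have h3 : ((((S X).filter fun D => ¬ D ∈ {D | ∀ i, D ∉ Z i}).card : ℕ) : ℝ) ≤
        η * ((S X).card : ℝ) := by
      have h4 := (card_le_card h2).trans card_biUnion_le
      have h5 : ((∑ i ∈ range N, ((S X).filter fun D => D ∈ Z i).card : ℕ) : ℝ) ≤
          ∑ i ∈ range N, η / 2 / 2 ^ i * ((S X).card : ℝ) := by
        rw [Nat.cast_sum]
        exact sum_le_sum fun i _ => hZle i X
      refine (Nat.cast_le.2 h4).trans (h5.trans ?_)
      rw [← sum_mul]
      refine mul_le_mul_of_nonneg_right ?_ (Nat.cast_nonneg _)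
      have h6 : ∑ i ∈ range N, η / 2 / 2 ^ i = η / 2 * ∑ i ∈ range N, (1 / 2 : ℝ) ^ i := by
        rw [mul_sum]
        refine sum_congr rfl fun i _ => ?_
        rw [one_div, inv_pow]
        rfl
      rw [h6]
      have h7 : ∑ i ∈ range N, (1 / 2 : ℝ) ^ i ≤ 2 := by
        have := Summable.sum_le_tsum (range N) (fun i _ => by positivity)
          (summable_geometric_of_lt_one (r := (1 / 2 : ℝ)) (by norm_num) (by norm_num))
        rw [tsum_geometric_of_lt_one (by norm_num) (by norm_num)] at this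
        norm_num at this ⊢
        linarith
      nlinarith
    have h4 := card_filter_add_card_filter_not (s := S X) (fun D => D ∈ {D | ∀ i, D ∉ Z i})
    have h5 : (((S X).filter fun D => D ∈ {D | ∀ i, D ∉ Z i}).card : ℝ) +
        (((S X).filter fun D => ¬ D ∈ {D | ∀ i, D ∉ Z i}).card : ℝ) = ((S X).card : ℝ) := by
      exact_mod_cast h4
    have h6 : cn (S X) {D | ∀ i, D ∉ Z i} =
        (((S X).filter fun D => D ∈ {D | ∀ i, D ∉ Z i}).card : ℝ) := rfl
    rw [h6]
    linarith
  · refine ⟨max (k i) ((S (X₀ i)).sup fun D => g (U D + M i)), fun D hD _ => ?_⟩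
    by_cases h1 : D ∈ S (X₀ i)
    · exact (Finset.le_sup (f := fun D => g (U D + M i)) h1).trans (le_max_right _ _)
    · by_contra hcon
      push Not at hcon
      refine hD i ?_
      rw [hZ]
      exact ⟨hi, h1, (le_max_left _ _).trans hcon.le⟩

/-- **The functions realised in all the dense sets.** -/
theorem Law.universal_iff [Inhabited α] (h : Law S U g ok p) (hW : OkW S U ok) (hp : HasSum p 1)
    (hmono : Monotone S) (f : Finset ℕ → ℕ) :
    (∀ A : Set α, Large S A → ∃ d : ℕ → α, Function.Injective d ∧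
      (∀ i, d i ∈ A ∧ ∃ X, d i ∈ S X) ∧
      ∀ T : Finset ℕ, 2 ≤ T.card → ¬ 3 ∣ T.card → g (∑ i ∈ T, U (d i)) = f T) ↔
    ∀ T : Finset ℕ, T.Nonempty → ¬ 3 ∣ T.card + 1 →
      BddAbove (Set.range fun k : ℕ => f (insert k T)) := by
  constructor
  · intro hall
    -- the sums of classes
    have hcnt : (⋃ X, (S X : Set α)).Countable := Set.countable_iUnion fun X =>
      (S X).countable_toSet
    have hcnt2 : {m : V | ∃ T : Finset α, (T : Set α) ⊆ ⋃ X, (S X : Set α) ∧
        m = ∑ D ∈ T, U D}.Countable := by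
      have h1 := (Set.countable_ofPred_finite_subset hcnt)
      have h2 : {m : V | ∃ T : Finset α, (T : Set α) ⊆ ⋃ X, (S X : Set α) ∧
          m = ∑ D ∈ T, U D} ⊆ (fun t : Set α => if ht : t.Finite then ∑ D ∈ ht.toFinset, U D
            else 0) '' {t | t.Finite ∧ t ⊆ ⋃ X, (S X : Set α)} := by
        rintro m ⟨T, hT, rfl⟩
        refine ⟨(T : Set α), ⟨T.finite_toSet, hT⟩, ?_⟩
        beta_reduce
        rw [dif_pos T.finite_toSet]
        congr 1
        exact Finset.finite_toSet_toFinset T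
      exact (h1.image _).mono h2
    obtain ⟨M, hM⟩ := hcnt2.exists_eq_range ⟨0, ∅, by simp, by simp⟩
    obtain ⟨A, hA1, hA2⟩ := h.exists_bdd hp hmono M (η := 1 / 2) (by norm_num)
    have hAL : Large S A := by
      refine ⟨1 / 2, by norm_num, fun ε hε => Frequently.of_forall fun X => ?_⟩
      have h1 := hA1 X
      have h2 : (0 : ℝ) ≤ ((S X).card : ℝ) := Nat.cast_nonneg _
      nlinarith
    obtain ⟨d, hd1, hd2, hd3⟩ := hall A hAL
    intro T hT h3
    -- the bound
    have hm : (∑ i ∈ T, U (d i)) ∈ Set.range M := by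
      rw [← hM]
      refine ⟨T.image d, ?_, ?_⟩
      · intro D hD
        rw [mem_coe, mem_image] at hD
        obtain ⟨i, -, rfl⟩ := hD
        obtain ⟨X, hX⟩ := (hd2 i).2
        exact Set.mem_iUnion.2 ⟨X, hX⟩
      · rw [sum_image fun i _ k _ h => hd1 h]
    obtain ⟨i, hi⟩ := hm
    have hok : ok (M i) := by
      rw [hi]
      refine hW T (fun i => U (d i)) (fun i _ => ?_) h3
      obtain ⟨X, hX⟩ := (hd2 i).2
      exact ⟨X, d i, hX, rfl⟩
    obtain ⟨B, hB⟩ := hA2 i hok
    refine ⟨max B (f T), ?_⟩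
    rintro _ ⟨k, rfl⟩
    beta_reduce
    by_cases hk : k ∈ T
    · rw [insert_eq_self.2 hk]
      exact le_max_right _ _
    · refine le_trans ?_ (le_max_left _ _)
      have h4 := hd3 (insert k T) (by
        rw [card_insert_of_notMem hk]
        have := hT.card_pos
        omega) (by
        rw [card_insert_of_notMem hk]
        exact h3)
      rw [← h4, sum_insert hk, ← hi]
      exact hB (d k) (hd2 k).1 (hd2 k).2
  · intro hf A hA
    obtain ⟨f', hf'⟩ : ∃ f' : Finset ℕ → ℕ, ∀ T, f' T = if 2 ≤ T.card ∧ ¬ 3 ∣ T.card then f T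
        else 0 := ⟨_, fun _ => rfl⟩
    have hb : ∀ T : Finset ℕ, BddAbove (Set.range fun k : ℕ => f' (insert k T)) := by
      intro T
      by_cases hT : T.Nonempty ∧ ¬ 3 ∣ T.card + 1
      · obtain ⟨B, hB⟩ := hf T hT.1 hT.2
        refine ⟨B, ?_⟩
        rintro _ ⟨k, rfl⟩
        beta_reduce
        rw [hf']
        split_ifs
        · exact hB ⟨k, rfl⟩
        · exact Nat.zero_le _
      · refine ⟨f' T, ?_⟩
        rintro _ ⟨k, rfl⟩
        beta_reduce
        by_cases hk : k ∈ T
        · rw [insert_eq_self.2 hk]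
        · rw [hf' (insert k T), if_neg]
          · exact Nat.zero_le _
          · rintro ⟨h1, h2⟩
            rw [card_insert_of_notMem hk] at h1 h2
            exact hT ⟨card_pos.1 (by omega), h2⟩
    obtain ⟨d, h1, h2, -, h4⟩ := h.universal hW hA f' hb ∅
    refine ⟨d, h1, h2, fun T hT h3 => ?_⟩
    rw [h4 T hT h3, hf', if_pos ⟨hT, h3⟩]

end Run7.h460.JR.UniR
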