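import Pool.Agent.Run7.h460.JR.FinD
import Pool.Agent.Run7.h460.JR.UniS

/-!
# The functions realised in all the dense sets, over the ring of integers
-/

set_option autoImplicit false
set_option linter.unusedVariables false
set_option linter.unusedSectionVars false

open scoped Classical

namespace Run7.h460.JR

open Finset NumberField Filter
open Pool.Agent.Y692.QS (Ei w nr)
open Pool.Agent.Y703.XL (cr)
open Pool.Agent.Y703.XL.Inf (killed SelInf sel_card sel_triv)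
open Pool.Agent.Y696.CTK (ED)
open Run7.h707.TC (dlt FamU FamO famO_iff)
open Run7.h460.JL
open Run7.h460.JL.Mix

section
variable {K : Type} [Field K] [NumberField K]
variable (j : Ei ≃+* 𝓞 K) (hj : ∀ z : Ei, Algebra.norm ℤ (j z) = nr z)

include j hj in
theorem SX_mono (r : 𝓞 K) : Monotone (SX r) := by
  intro X X' h a ha
  rw [mem_SX j hj] at ha ⊢
  exact ⟨ha.1.trans (by exact_mod_cast h), ha.2⟩

end

/-- **The orders are bounded on a large set.** -/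
theorem finB (K : Type) [Field K] [NumberField K] [IsCyclotomicExtension {3} ℚ K] (ω : K)
    (hω : ω ^ 2 + ω + 1 = 0) (r : 𝓞 K) (hr : FamO r) (η : ℝ) (hη : 0 < η) :
    ∃ A : Set (𝓞 K), (∀ X, (1 - η) * ((BB r X).ncard : ℝ) ≤ ((BB r X ∩ A).ncard : ℝ)) ∧
      ∀ m : 𝓞 K, FamO m → Good (r * m) → ∃ B : ℕ, ∀ a ∈ A, FamO a → SC a r →
        (killed ω (a * m : 𝓞 K)).ncard ≤ 3 ^ B := by
  obtain ⟨⟨j, hj⟩, -⟩ := Pool.Agent.Y455.CTK.jex K
  have hlaw := lawG K j hj hω hr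
  have hcnt : Countable (𝓞 K) := Finsupp.Countable.of_moduleFinite (R := ℤ)
  obtain ⟨φ, hφ⟩ := exists_surjective_nat (𝓞 K)
  obtain ⟨A, hA1, hA2⟩ := hlaw.exists_bdd Pool.Agent.R419.KL.prob_facts.2.2.2 (SX_mono j hj r)
    (fun i => UU (φ i)) hη
  have h1 : ∀ X, ((SX r X : Finset (𝓞 K)) : Set (𝓞 K)) = BB r X := by
    intro X
    ext a
    rw [mem_coe, mem_SX j hj]
    exact Iff.rfl
  refine ⟨A, fun X => ?_, fun m hm hg => ?_⟩
  · have h2 := hA1 X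
    have h3 : ((BB r X).ncard : ℝ) = ((SX r X).card : ℝ) := by
      rw [← h1, Set.ncard_coe_finset]
    have h4 : ((BB r X ∩ A).ncard : ℝ) = cn (SX r X) A := by
      unfold cn
      rw [← h1, ← Set.ncard_coe_finset]
      congr 2
      ext a
      rw [mem_coe, mem_filter]
      exact Iff.rfl
    rw [h3, h4]
    exact h2
  · obtain ⟨i, rfl⟩ := hφ m
    obtain ⟨B, hB⟩ := hA2 i ⟨φ i, hm, rfl, by rw [mul_comm]; exact hg⟩
    refine ⟨B, fun a ha ha1 ha2 => ?_⟩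
    obtain ⟨z, c, hz, hc, hs, he⟩ := famO_mul' j hj ha1 hm
    have hgx : Good (a * φ i) := hg.sc (ha2.mul (SC.refl _))
    have hgz := hgx.sc hs.symm
    obtain ⟨k, hk, -⟩ := (facts_of j hj hω hz hc he hgz hgx).1.rk
    have h5 := (gg_iff j hj hω hz hc he hgz hgx k).2 hk
    rw [hk]
    refine Nat.pow_le_pow_right (by norm_num) ?_
    rw [← h5, UU_mul (famO_ne j ha1) (famO_ne j hm)]
    obtain ⟨X, hX⟩ := exists_nat_ge ((Algebra.norm ℤ a).toNat : ℝ)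
    refine hB a ha ⟨X, (mem_SX j hj).2 ⟨?_, ha1, ha2⟩⟩
    have h6 : (Algebra.norm ℤ a).toNat ≤ X := by exact_mod_cast hX
    omega

/-- **The functions realised in all the dense sets.** -/
theorem finIff (K : Type) [Field K] [NumberField K] [IsCyclotomicExtension {3} ℚ K] (ω : K)
    (hω : ω ^ 2 + ω + 1 = 0) (r : 𝓞 K) (hr : FamO r) (h1 : Good r) (f : Finset ℕ → ℕ) :
    (∀ (A : Set (𝓞 K)) (δ : ℝ), 0 < δ → UDG r A δ → ∃ d : ℕ → 𝓞 K, Function.Injective d ∧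
      (∀ i, d i ∈ A ∧ FamO (d i) ∧ SC (d i) r) ∧
      ∀ S : Finset ℕ, 2 ≤ S.card → ¬ 3 ∣ S.card →
        Facts ω (∏ i ∈ S, d i) ∧ (killed ω ((∏ i ∈ S, d i : 𝓞 K) : K)).ncard = 3 ^ f S) ↔
    ∀ S : Finset ℕ, S.Nonempty → ¬ 3 ∣ S.card + 1 →
      BddAbove (Set.range fun k : ℕ => f (insert k S)) := by
  obtain ⟨⟨j, hj⟩, -⟩ := Pool.Agent.Y455.CTK.jex K
  have : Inhabited (𝓞 K) := ⟨0⟩
  have hlaw := lawG K j hj hω hr
  have hone : ¬ IsOne r := fun h => h1.2 h.2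
  rw [← hlaw.universal_iff (okW K j hj hr h1) Pool.Agent.R419.KL.prob_facts.2.2.2
    (SX_mono j hj r) f]
  -- the elements
  have hd : ∀ d : 𝓞 K, (∃ X, d ∈ SX r X) ↔ FamO d ∧ SC d r := by
    intro d
    constructor
    · rintro ⟨X, hX⟩
      exact ((mem_SX j hj).1 hX).2
    · intro h
      refine ⟨(Algebra.norm ℤ d).toNat, (mem_SX j hj).2 ⟨?_, h⟩⟩
      omega
  have hkey : ∀ d : ℕ → 𝓞 K, (∀ i, FamO (d i) ∧ SC (d i) r) → ∀ S : Finset ℕ, ¬ 3 ∣ S.card →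
      (Facts ω (∏ i ∈ S, d i) ∧ ((killed ω ((∏ i ∈ S, d i : 𝓞 K) : K)).ncard = 3 ^ f S ↔
        gg ω (∑ i ∈ S, UU (d i)) = f S)) := by
    intro d hd S hS3
    have hd0 : ∀ i, d i ≠ 0 := fun i => famO_ne j (hd i).1
    obtain ⟨z, c, hz, hc, hs, he⟩ := famO_prod j hj S d fun i _ => (hd i).1
    have h6 := SC_prod (r := r) j hj S d fun i _ => (hd i).2
    have hgr : Good (r ^ S.card) :=
      ⟨pow_one_dvd h1.1 _, fun h9 => not_isOne_pow j hj hr hone hS3 ⟨pow_one_dvd h1.1 _, h9⟩⟩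
    have hgx := hgr.sc h6
    have hgz := hgx.sc hs.symm
    refine ⟨(facts_of j hj hω hz hc he hgz hgx).1, ?_⟩
    rw [← gg_iff j hj hω hz hc he hgz hgx, UU_prod S d fun i _ => hd0 i]
  constructor
  · intro h A hA
    obtain ⟨δ, hδ, hA⟩ := hA
    obtain ⟨d, h2, h3, h4⟩ := h A δ hδ ((udg_iff j hj).2 hA)
    refine ⟨d, h2, fun i => ⟨(h3 i).1, (hd _).2 (h3 i).2⟩, fun S hS hS3 => ?_⟩
    exact (hkey d (fun i => (h3 i).2) S hS3).2.1 (h4 S hS hS3).2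
  · intro h A δ hδ hA
    obtain ⟨d, h2, h3, h4⟩ := h A ⟨δ, hδ, (udg_iff j hj).1 hA⟩
    have h5 : ∀ i, FamO (d i) ∧ SC (d i) r := fun i => (hd _).1 (h3 i).2
    refine ⟨d, h2, fun i => ⟨(h3 i).1, h5 i⟩, fun S hS hS3 => ?_⟩
    obtain ⟨k1, k2⟩ := hkey d h5 S hS3
    exact ⟨k1, k2.2 (h4 S hS hS3)⟩

end Run7.h460.JR
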