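import Pool.Agent.Run7.h460.JR.FormR

/-!
# The joint distribution function and the ranks
-/

set_option autoImplicit false
set_option linter.unusedVariables false
set_option linter.unusedSectionVars false

open scoped Classical

namespace Run7.h460.JR

open Finset Filter
open NumberField
open Pool.Agent.Y692.QS (Ei w nr)
open Pool.Agent.Y703.XL (cr)
open Pool.Agent.Y703.XL.Inf (killed SelInf sel_card sel_triv)
open Pool.Agent.Y696.CTK (ED)
open Run7.h707.TC (FamU FamO famO_iff)
open Run7.h460.JL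

section
variable {K : Type} [Field K] [NumberField K] {m q : ℕ}

theorem inC_fin [IsCyclotomicExtension {3} ℚ K] (r : Fin m → 𝓞 K) (X : ℕ) :
    {a : Fin m → 𝓞 K | (∀ i, Algebra.norm ℤ (a i) ≤ X) ∧ InC r a}.Finite := by
  obtain ⟨⟨j, hj⟩, -⟩ := Pool.Agent.Y455.CTK.jex K
  have h : {a : Fin m → 𝓞 K | (∀ i, Algebra.norm ℤ (a i) ≤ X) ∧ InC r a} ⊆
      (fun (b : Fin m → Ei) => fun k => j (b k)) '' SA m X := by
    rintro a ⟨h1, h2⟩
    refine ⟨fun k => j.symm (a k), fun k => ⟨?_, ?_⟩, funext fun k => j.apply_symm_apply _⟩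
    · rw [← hj, j.apply_symm_apply]
      exact h1 k
    · rw [← famO_iff j, j.apply_symm_apply]
      exact (h2 k).1
  exact ((SA_fin m X).image _).subset h

/-- the number of the tuples as the number of the elements of a finite set -/
theorem num_card [IsCyclotomicExtension {3} ℚ K] (r : Fin m → 𝓞 K) (X : ℕ)
    (P : (Fin m → 𝓞 K) → Prop) [DecidablePred P] :
    num X (fun a => InC r a ∧ P a) = (((inC_fin r X).toFinset.filter P).card : ℝ) := by
  unfold num
  rw [← Set.ncard_coe_finset]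
  congr 2
  ext a
  rw [mem_coe, mem_filter, Set.Finite.mem_toFinset]
  exact ⟨fun h => ⟨⟨h.1, h.2.1⟩, h.2.2⟩, fun h => ⟨h.1.1, h.1.2, h.2⟩⟩

/-- **The joint distribution function.** -/
theorem cumR [IsCyclotomicExtension {3} ℚ K] {ω : K} {c : Fin q → 𝓞 K} {e : Fin q → Fin m → ℕ}
    {r : Fin m → 𝓞 K}
    (hlaw : ∀ s : Fin q → ℕ, Tendsto (fun X : ℕ =>
        num X (fun a => InC r a ∧ ∀ t, (killed ω (tw c e a t : K)).ncard = 3 ^ s t) /
          num X (InC r)) atTop (nhds (∏ t, cr (s t))))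
    (hf : ∀ a, InC r a → ∀ t, Facts ω (tw c e a t)) (s : Fin q → ℕ) :
    Tendsto (fun X : ℕ =>
        num X (fun a => InC r a ∧ ∀ t, (killed ω (tw c e a t : K)).ncard ≤ 3 ^ s t) /
          num X (InC r)) atTop (nhds (∏ t, ∑ i ∈ range (s t + 1), cr i)) := by
  rw [prod_univ_sum]
  refine (tendsto_finsetSum _ fun s' _ => hlaw s').congr fun X => ?_
  rw [← sum_div]
  congr 1
  have hk : ∀ a : Fin m → 𝓞 K, ∃ k : Fin q → ℕ, InC r a →
      ∀ t, (killed ω (tw c e a t : K)).ncard = 3 ^ k t := by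
    intro a
    by_cases ha : InC r a
    · choose k hk using fun t => (hf a ha t).rk
      exact ⟨k, fun _ t => (hk t).1⟩
    · exact ⟨fun _ => 0, fun h => absurd h ha⟩
  choose k hk using hk
  have hin : ∀ a ∈ (inC_fin r X).toFinset, InC r a := fun a ha =>
    ((Set.Finite.mem_toFinset _).1 ha).2
  have hmap : ∀ a ∈ (inC_fin r X).toFinset.filter (fun a =>
      ∀ t, (killed ω (tw c e a t : K)).ncard ≤ 3 ^ s t),
      k a ∈ Fintype.piFinset fun t => range (s t + 1) := by
    intro a ha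
    obtain ⟨h1, h2⟩ := mem_filter.1 ha
    rw [Fintype.mem_piFinset]
    intro t
    have h3 := h2 t
    rw [hk a (hin a h1) t, Nat.pow_le_pow_iff_right (by norm_num)] at h3
    rw [mem_range]
    omega
  have h1 := card_eq_sum_card_fiberwise hmap
  rw [num_card, h1, Nat.cast_sum]
  refine sum_congr rfl fun s' hs' => ?_
  rw [num_card, filter_filter]
  congr 2
  refine filter_congr fun a ha => ?_
  have h2 := hk a (hin a ha)
  rw [Fintype.mem_piFinset] at hs'
  constructor
  · intro h3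
    refine ⟨fun t => ?_, funext fun t => ?_⟩
    · rw [h3 t, Nat.pow_le_pow_iff_right (by norm_num)]
      have := mem_range.1 (hs' t)
      omega
    · have h4 := h3 t
      rw [h2 t] at h4
      exact Nat.pow_right_injective (le_refl 2 |>.trans (by norm_num)) h4
  · rintro ⟨-, rfl⟩
    exact h2

/-- **The ranks.** -/
theorem rankR [IsCyclotomicExtension {3} ℚ K] {ω : K} {c : Fin q → 𝓞 K} {e : Fin q → Fin m → ℕ}
    {r : Fin m → 𝓞 K}
    (hlaw : ∀ s : Fin q → ℕ, Tendsto (fun X : ℕ =>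
        num X (fun a => InC r a ∧ ∀ t, (killed ω (tw c e a t : K)).ncard = 3 ^ s t) /
          num X (InC r)) atTop (nhds (∏ t, cr (s t))))
    (hf : ∀ a, InC r a → ∀ t, Facts ω (tw c e a t)) (s : Fin q → ℕ) {ε : ℝ} (hε : 0 < ε) :
    ∀ᶠ X : ℕ in atTop, ∏ t, ∑ i ∈ range (s t + 1), cr i - ε ≤
      num X (fun a => InC r a ∧ ∀ t, Module.finrank ℤ (ED (tw c e a t : K)).toAffine.Point ≤
        2 * s t) / num X (InC r) := by
  have h1 := (cumR hlaw hf s).eventually (lt_mem_nhds
    (show ∏ t, ∑ i ∈ range (s t + 1), cr i - ε < ∏ t, ∑ i ∈ range (s t + 1), cr i by linarith))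
  filter_upwards [h1] with X hX
  refine hX.le.trans (div_le_div_of_nonneg_right ?_ ?_)
  · rw [num_card, num_card]
    refine Nat.cast_le.2 (card_le_card fun a ha => ?_)
    obtain ⟨h2, h3⟩ := mem_filter.1 ha
    refine mem_filter.2 ⟨h2, fun t => ?_⟩
    obtain ⟨k, hk, hk2⟩ := (hf a ((Set.Finite.mem_toFinset _).1 h2).2 t).rk
    have h4 := h3 t
    rw [hk, Nat.pow_le_pow_iff_right (by norm_num)] at h4
    omega
  · exact Nat.cast_nonneg _

end

end Run7.h460.JR
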