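import Pool.Agent.Run7.h707.TC.Crit4
import Pool.Agent.R419.KL.Fin

/-!
# The order of the Selmer group of a monomial and the rank of its matrix
-/

set_option autoImplicit false
set_option linter.unusedVariables false
set_option linter.unusedSectionVars false

open scoped Classical

namespace Run7.h460.JR

open Finset Module
open NumberField
open Pool.Agent.Y692.QS (Ei w nr)
open Pool.Agent.Y715.T.Rec (cs)
open Pool.Agent.Y715.T.RecG (Pq)
open Pool.Agent.Y703.CT (Dt pD)
open Pool.Agent.XL6 (SelK KerV SelH)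
open Pool.Agent.Y696.CTK (Parts parts ED)
open Pool.Agent.Y155.CT (a_mul a_cont)
open Pool.Agent.N883.FF (nq pB)
open Pool.Agent.R419.CE (tw_div)
open Run7.h707.TC
open Q283.T3 (KS)

/-- the kernel of the matrix without unit and the solutions of the equations -/
theorem ks_ncard {T : Finset Ei} (hT : ∀ u ∈ T, Pq u) (e : Ei → ZMod 3) :
    (KerV (fun π : ↥(Uu T e) => (π : Ei)) (fun π => e π)).ncard =
      3 ^ finrank (ZMod 3) (KS (co T e 0) (So T e 0)) := by
  have h1 : Nat.card (KS (co T e 0) (So T e 0)) =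
      3 ^ finrank (ZMod 3) (KS (co T e 0) (So T e 0)) := by
    rw [Module.natCard_eq_pow_finrank (K := ZMod 3), Nat.card_zmod]
  rw [← h1, ← Nat.card_coe_set_eq]
  have hmemT : ∀ j : ↥(Uu T e), (j : Ei) ∈ T := fun j => (mem_filter.1 j.2).1
  have hmemE : ∀ j : ↥(Uu T e), e j ≠ 0 := fun j => (mem_filter.1 j.2).2
  refine (Nat.card_congr (Equiv.ofBijective
    (fun x : KS (co T e 0) (So T e 0) =>
      (⟨fun j => x.1 (some ⟨j, hmemT j⟩), ?_⟩ :
        ↥(KerV (fun π : ↥(Uu T e) => (π : Ei)) (fun π => e π)))) ⟨?_, ?_⟩)).symm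
  · obtain ⟨x, hx⟩ := x
    rw [mem_KS_iff hT] at hx
    intro j
    have h2 := hx.2 ⟨j, hmemT j⟩ (hmemE j)
    set x' : Ei → ZMod 3 := fun π => if hπ : π ∈ T then x (some ⟨π, hπ⟩) else 0 with hx'
    have hxx : ∀ b : T, x' b = x (some b) := fun b => by
      rw [hx']
      simp
    have h3 : ∑ b : T, e b * cs (j : Ei) b * (x (some b) - x (some ⟨j, hmemT j⟩)) =
        ∑ b : T, e b * (cs (j : Ei) b * (x' b - x' j)) :=
      Finset.sum_congr rfl fun b _ => by
        rw [hxx b, hxx ⟨j, hmemT j⟩]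
        ring
    rw [h3, sum_U (fun b => cs (j : Ei) b * (x' b - x' j)), zero_mul, zero_mul, add_zero] at h2
    refine Eq.trans ?_ h2
    refine Finset.sum_congr rfl fun b _ => ?_
    rw [hxx ⟨b, hmemT b⟩, hxx ⟨j, hmemT j⟩]
    ring
  · rintro ⟨x, hx⟩ ⟨y, hy⟩ h
    have h2 : (fun j : ↥(Uu T e) => x (some ⟨j, hmemT j⟩)) =
        fun j : ↥(Uu T e) => y (some ⟨j, hmemT j⟩) := congrArg Subtype.val h
    rw [mem_KS_iff hT] at hx hy
    refine Subtype.ext (funext fun a => ?_)
    show x a = y a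
    by_cases ha : wO T e 0 a = 0
    · rw [hx.1 a ha, hy.1 a ha]
    · cases a with
      | none => exact absurd rfl ha
      | some a =>
        have haU : (a : Ei) ∈ Uu T e := mem_filter.2 ⟨a.2, ha⟩
        exact congrFun h2 ⟨a, haU⟩
  · rintro ⟨v, hv⟩
    set v' : Ei → ZMod 3 := fun π => if hπ : π ∈ Uu T e then v ⟨π, hπ⟩ else 0 with hv'
    have hvv : ∀ b : ↥(Uu T e), v' b = v b := fun b => by
      rw [hv']
      simp
    set x : Option T → ZMod 3 := fun a => match a with
      | none => 0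
      | some a => v' a with hx
    have hxm : x ∈ KS (co T e 0) (So T e 0) := by
      rw [mem_KS_iff hT]
      refine ⟨fun a ha => ?_, fun a ha => ?_⟩
      · cases a with
        | none => rfl
        | some a =>
          show v' a = 0
          rw [hv']
          refine dif_neg fun h => ?_
          unfold Uu at h
          exact (mem_filter.1 h).2 ha
      · have haU : (a : Ei) ∈ Uu T e := mem_filter.2 ⟨a.2, ha⟩
        have h1 := hv ⟨a, haU⟩
        have h2 : ∑ b : T, e b * cs (a : Ei) b * (x (some b) - x (some a)) =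
            ∑ b : T, e b * (cs (a : Ei) b * (v' b - v' a)) :=
          Finset.sum_congr rfl fun b _ => by
            show e b * cs (a : Ei) b * (v' b - v' a) = _
            ring
        rw [h2, sum_U (fun b => cs (a : Ei) b * (v' b - v' a))]
        have h3 : ∑ b : ↥(Uu T e), e b * (cs (a : Ei) b * (v' b - v' a)) =
            ∑ b : ↥(Uu T e), e b * cs (a : Ei) b * (v b - v ⟨a, haU⟩) :=
          Finset.sum_congr rfl fun b _ => by
            rw [hvv b, hvv ⟨a, haU⟩]
            ring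
        rw [h3, h1, zero_mul, zero_mul, add_zero]
    refine ⟨⟨x, hxm⟩, Subtype.ext (funext fun j => ?_)⟩
    show v' j = v j
    exact hvv j

section
variable {K : Type} [Field K] [NumberField K] (j : Ei ≃+* 𝓞 K)
variable {J : Type} [Fintype J] [Nonempty J] {π : J → Ei} {e : J → ZMod 3}

/-- the Selmer group and the rank for `D c ³` -/
theorem main_c (hD : Dt π e) (h9 : ¬ (9 : ℤ) ∣ nr (pD π e) - 1) {c : Ei} (hc : c ≠ 0) :
    (SelK (j (pD π e * c ^ 3) : K)).ncard = (KerV π e).ncard ∧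
    ∀ r : ℕ, (KerV π e).ncard ≤ 3 ^ (r + 1) →
      Module.finrank ℤ (ED (j (pD π e * c ^ 3) : K)).toAffine.Point ≤ 2 * r := by
  have hne0 : pD π e ≠ 0 := Pool.Agent.Y153.CTRAM.ne_zero_of hD
  have hne : pD π e * c ^ 3 ≠ 0 := mul_ne_zero hne0 (pow_ne_zero 3 hc)
  obtain ⟨e', i₀, hi, u, a, Ψ, g, hdata⟩ := parts.trf K j _ hne
  have hT0 := hdata.1
  have hT := tw_div hc hT0
  have h1 : (SelH hi a).ncard = (KerV π e).ncard := Pool.Agent.XL6.sel_card hD h9 hT
  refine ⟨(Pool.Agent.XL6.selK_card hne hdata).trans h1, fun r hr => ?_⟩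
  have hpos : (KerV π e).ncard ≠ 0 := by
    have h0 : (0 : J → ZMod 3) ∈ KerV π e := fun j => by simp
    exact Set.ncard_ne_zero_of_mem h0 (Set.toFinite _)
  have hfin : (SelH hi a).Finite := Set.finite_of_ncard_ne_zero (by rw [h1]; exact hpos)
  exact (Pool.Agent.XL6.rk_le hne hdata).trans (Pool.Agent.XL6.rank_le (a_mul hne0 hT)
    (a_cont hne0 hT) (Pool.Agent.R395.CT.a_ne hD hT) hfin (by rw [h1]; exact hr))

end

/-- the equations of the monomial `δ`, with the units cancelling -/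
theorem gt_iffR {K : Type} [Field K] [NumberField K] (j : Ei ≃+* 𝓞 K) {m Mt : ℕ}
    (n : Fin Mt → Fin m → ℕ) (i : Fin m → ZMod 3) {M S : Fin m → Finset Ei}
    (hM : ∀ k, M k ⊆ S k) (hS : ∀ k, ∀ q ∈ S k, Pq q)
    (hne : ∀ t, NEc (dlt (n t) fun k => elw (i k) (M k) (S k)))
    (hy : ∀ t, ∑ k, (n t k : ZMod 3) * i k = 0) (r : Fin Mt → ℕ) :
    GT M (fun t k => (n t k : ZMod 3)) (fun t => ∑ k, (n t k : ZMod 3) * i k) r S ↔
      ∀ t, (SelK (j (dlt (n t) fun k => elw (i k) (M k) (S k)) : K)).ncard = 3 ^ (r t + 1) := by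
  unfold GT
  refine forall_congr' fun t => ?_
  obtain ⟨c, hc, hcp, hd⟩ := dlt_eq (n t) i hM hS
  have h0 := (nec_iff hM hS).1 (hne t)
  have hU := h0.1
  have hT := tt_pq hS
  have hD := dt_U hT (eT (n t) M S)
  have hn : Nonempty ↥(Uu (Tt S) (eT (n t) M S)) := hU.to_subtype
  beta_reduce
  have h9 : ¬ (9 : ℤ) ∣ nr (pD (fun π : ↥(Uu (Tt S) (eT (n t) M S)) => (π : Ei))
      (fun π => eT (n t) M S π)) - 1 := by
    intro h9
    have h2 := (nx_iff hD (∑ k, (n t k : ZMod 3) * i k) hcp).2 ⟨hy t, h9⟩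
    have h3 := (hne t).2
    rw [hd] at h3
    exact h3 h2
  rw [hd, hy t]
  have e1 : pB (fun π : ↥(Uu (Tt S) (eT (n t) M S)) => (π : Ei)) (fun π => eT (n t) M S π) 0 =
      pD (fun π : ↥(Uu (Tt S) (eT (n t) M S)) => (π : Ei)) (fun π => eT (n t) M S π) := by
    unfold pB
    rw [ZMod.val_zero, pow_zero, one_mul]
  have h4 := (main_c (K := K) j hD h9 hc).1
  have h5 := ks_ncard hT (eT (n t) M S)
  rw [h5] at h4
  rw [← e1] at h4
  unfold eT at h4
  rw [h4]
  constructor
  · intro h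
    exact congrArg (fun x => 3 ^ x) h
  · intro h
    exact Nat.pow_right_injective (le_refl 2 |>.trans (by norm_num)) h

end Run7.h460.JR
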