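import Pool.Agent.Run7.h460.JR.InstR
import Pool.Agent.Run7.h460.JL.Fin

/-!
# The orders of the Selmer groups on dense sets, over the ring of integers
-/

set_option autoImplicit false
set_option linter.unusedVariables false
set_option linter.unusedSectionVars false

open scoped Classical

namespace Run7.h460.JR

open Finset NumberField Filter
open Pool.Agent.Y692.QS (Ei w nr)
open Pool.Agent.Y703.XL (cr)
open Pool.Agent.Y703.XL.Inf (killed SelInf sel_card sel_triv)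
open Pool.Agent.Y696.CTK (ED)
open Pool.Agent.XL6 (SelK KerV)
open Run7.h707.TC (dlt FamU FamO famO_iff)
open Run7.h460.JL
open Run7.h460.JL.Mix

/-- **Mixing.** -/
theorem finMR (K : Type) [Field K] [NumberField K] [IsCyclotomicExtension {3} ℚ K] (ω : K)
    (hω : ω ^ 2 + ω + 1 = 0)
    (r : 𝓞 K) (hr : FamO r) (T : Finset (𝓞 K)) (hT : ∀ t ∈ T, FamO t)
    (s : 𝓞 K → ℕ) (A : Set (𝓞 K)) (δ ε : ℝ) (hA : UDG r A δ) (hε : 0 < ε) :
    {m : 𝓞 K | FamO m ∧ (∀ t ∈ T, Good (r * m * t)) ∧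
      ¬ UDG r {a | a ∈ A ∧ ∀ t ∈ T, (killed ω (a * m * t : 𝓞 K)).ncard = 3 ^ s t}
        ((∏ t ∈ T, cr (s t)) * δ - ε)}.Finite := by
  obtain ⟨⟨j, hj⟩, -⟩ := Pool.Agent.Y455.CTK.jex K
  have hlaw := lawG K j hj hω hr
  have hTi : Set.InjOn (UU : 𝓞 K → VV K) T := fun a ha b hb h => UU_inj j (hT a ha) (hT b hb) h
  obtain ⟨σ, hσ⟩ : ∃ σ : VV K → ℕ, ∀ t ∈ T, σ (UU t) = s t := by
    refine ⟨fun v => if hv : ∃ t ∈ T, UU t = v then s hv.choose else 0, fun t ht => ?_⟩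
    have hv : ∃ t' ∈ T, UU t' = UU t := ⟨t, ht, rfl⟩
    beta_reduce
    rw [dif_pos hv]
    congr 1
    exact hTi hv.choose_spec.1 ht hv.choose_spec.2
  have hpr : UniR.pr cr (T.image UU) σ = ∏ t ∈ T, cr (s t) := by
    unfold UniR.pr
    rw [prod_image hTi]
    exact prod_congr rfl fun t ht => by rw [hσ t ht]
  have hfin := hlaw.finite_exc (R := T.image UU) σ ((udg_iff j hj).1 hA) hε
  rw [hpr] at hfin
  refine Set.Finite.of_injOn (f := UU) (fun m hm => ?_)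
    (fun a ha a' ha' h => UU_inj j ha.1 ha'.1 h) hfin
  obtain ⟨hm, hone, hud⟩ := hm
  refine ⟨fun v hv => ?_, fun h => hud ((udg_iff j hj).2 ?_)⟩
  · obtain ⟨t, ht, rfl⟩ := mem_image.1 hv
    obtain ⟨z, c, hz, hc, hs, he⟩ := famO_mul' j hj hm (hT t ht)
    refine ⟨z, hz, ?_, (hone t ht).sc ?_⟩
    · rw [← UU_mul (famO_ne j hm) (famO_ne j (hT t ht)), he, UU_cube (famO_ne j hz) hc]
    · rw [mul_assoc r, mul_comm r]
      exact hs.symm.mul (SC.refl r)
  · -- the elements in the class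
    have key : ∀ X, ∀ a ∈ SX r X, a ∈ A ∩ UniR.Ev UU (gg ω) (UU m) (T.image UU) σ →
        a ∈ {a | a ∈ A ∧ ∀ t ∈ T, (killed ω (a * m * t : 𝓞 K)).ncard = 3 ^ s t} := by
      rintro X a haX ⟨haA, haE⟩
      rw [mem_SX j hj] at haX
      refine ⟨haA, fun t ht => ?_⟩
      have h2 := haE (UU t) (mem_image_of_mem _ ht)
      have ha0 := famO_ne j haX.2.1
      have hm0 := famO_ne j hm
      have ht0 := famO_ne j (hT t ht)
      obtain ⟨z, c, hz, hc, hs, he⟩ := famO_mul' j hj haX.2.1 hm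
      obtain ⟨z', c', hz', hc', hs', he'⟩ := famO_mul' j hj hz (hT t ht)
      have he2 : a * m * t = z' * (c' * c) ^ 3 := by
        rw [he, mul_right_comm, he']
        ring
      have hgx : Good (a * m * t) := (hone t ht).sc
        (SC.mul (SC.mul haX.2.2 (SC.refl m)) (SC.refl t))
      have hs2 : SC z' (r * m * t) := by
        refine SC.trans hs'.symm ?_
        exact SC.mul (SC.trans hs.symm (SC.mul haX.2.2 (SC.refl m))) (SC.refl t)
      have h3 := gg_iff j hj hω hz' (mul_ne_zero hc' hc) he2 ((hone t ht).sc hs2) hgx (s t)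
      have h4 : UU (a * m * t) = UU a + (UU m + UU t) := by
        rw [UU_mul (mul_ne_zero ha0 hm0) ht0, UU_mul ha0 hm0]
        exact add_assoc (UU a) (UU m) (UU t)
      rw [hσ t ht] at h2
      have h5 : gg ω (UU (a * m * t)) = s t := by rw [h4]; exact h2
      exact h3.1 h5
    intro ε' hε'
    refine (h ε' hε').mono fun X hX => hX.trans ?_
    exact cn_le fun a ha hb => key X a ha hb

/-- **Every dense set realises every function that is bounded in the last variable.** -/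
theorem finUR (K : Type) [Field K] [NumberField K] [IsCyclotomicExtension {3} ℚ K] (ω : K)
    (hω : ω ^ 2 + ω + 1 = 0)
    (r : 𝓞 K) (hr : FamO r) (h1 : Good r) (A : Set (𝓞 K)) (δ : ℝ) (hδ : 0 < δ)
    (hA : UDG r A δ) (f : Finset ℕ → ℕ)
    (hf : ∀ T : Finset ℕ, BddAbove (Set.range fun k : ℕ => f (insert k T))) :
    ∃ d : ℕ → 𝓞 K, Function.Injective d ∧ (∀ i, d i ∈ A ∧ FamO (d i) ∧ SC (d i) r) ∧
      ∀ S : Finset ℕ, 2 ≤ S.card → ¬ 3 ∣ S.card →
        Facts ω (∏ i ∈ S, d i) ∧ (killed ω ((∏ i ∈ S, d i : 𝓞 K) : K)).ncard = 3 ^ f S := by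
  obtain ⟨⟨j, hj⟩, -⟩ := Pool.Agent.Y455.CTK.jex K
  have : Inhabited (𝓞 K) := ⟨0⟩
  have hlaw := lawG K j hj hω hr
  have hone : ¬ IsOne r := fun h => h1.2 h.2
  obtain ⟨d, h2, h3, h4, h5⟩ := hlaw.universal (okW K j hj hr h1) ⟨δ, hδ, (udg_iff j hj).1 hA⟩ f hf ∅
  have hd : ∀ i, FamO (d i) ∧ SC (d i) r := by
    intro i
    obtain ⟨X, hX⟩ := (h3 i).2
    exact ((mem_SX j hj).1 hX).2
  have hd0 : ∀ i, d i ≠ 0 := fun i => famO_ne j (hd i).1
  refine ⟨d, h2, fun i => ⟨(h3 i).1, hd i⟩, fun S hS hS3 => ?_⟩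
  obtain ⟨z, c, hz, hc, hs, he⟩ := famO_prod j hj S d fun i _ => (hd i).1
  have h6 := SC_prod (r := r) j hj S d fun i _ => (hd i).2
  have hgr : Good (r ^ S.card) :=
    ⟨pow_one_dvd h1.1 _, fun h9 => not_isOne_pow j hj hr hone hS3 ⟨pow_one_dvd h1.1 _, h9⟩⟩
  have hgx := hgr.sc h6
  have hgz := hgx.sc hs.symm
  refine ⟨(facts_of j hj hω hz hc he hgz hgx).1, ?_⟩
  rw [← gg_iff j hj hω hz hc he hgz hgx, UU_prod S d fun i _ => hd0 i]
  exact h5 S hS hS3

/-- the facts on a product of cube-free elements -/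
theorem facts_prod (K : Type) [Field K] [NumberField K] [IsCyclotomicExtension {3} ℚ K] {ω : K}
    (hω : ω ^ 2 + ω + 1 = 0) {ι : Type*} (S : Finset ι) (a : ι → 𝓞 K) (ha : ∀ i ∈ S, FamO (a i))
    (hg : Good (∏ i ∈ S, a i)) : Facts ω (∏ i ∈ S, a i) := by
  obtain ⟨⟨j, hj⟩, -⟩ := Pool.Agent.Y455.CTK.jex K
  obtain ⟨z, c, hz, hc, hs, he⟩ := famO_prod j hj S a ha
  exact (facts_of j hj hω hz hc he (hg.sc hs.symm) hg).1

theorem facts_three (K : Type) [Field K] [NumberField K] [IsCyclotomicExtension {3} ℚ K] {ω : K}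
    (hω : ω ^ 2 + ω + 1 = 0) {a m t : 𝓞 K} (ha : FamO a) (hm : FamO m) (ht : FamO t)
    (hg : Good (a * m * t)) : Facts ω (a * m * t) := by
  have e : ∏ i ∈ (univ : Finset (Fin 3)), (![a, m, t] : Fin 3 → 𝓞 K) i = a * m * t := by
    rw [Fin.prod_univ_three]
    rfl
  have h := facts_prod K hω (univ : Finset (Fin 3)) ![a, m, t] (by
    intro i _
    fin_cases i
    · exact ha
    · exact hm
    · exact ht) (by rw [e]; exact hg)
  rw [e] at h
  exact h

/-- **Mixing**, for a property that is equivalent to the order of the kernel. -/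
theorem finMH (K : Type) [Field K] [NumberField K] [IsCyclotomicExtension {3} ℚ K] (ω : K)
    (hω : ω ^ 2 + ω + 1 = 0) (H : 𝓞 K → ℕ → Prop)
    (hH : ∀ (x : 𝓞 K) (k : ℕ), Facts ω x → ((killed ω (x : K)).ncard = 3 ^ k ↔ H x k))
    (r : 𝓞 K) (hr : FamO r) (T : Finset (𝓞 K)) (hT : ∀ t ∈ T, FamO t)
    (s : 𝓞 K → ℕ) (A : Set (𝓞 K)) (δ ε : ℝ) (hA : UDG r A δ) (hε : 0 < ε) :
    {m : 𝓞 K | FamO m ∧ (∀ t ∈ T, Good (r * m * t)) ∧
      ¬ UDG r {a | a ∈ A ∧ ∀ t ∈ T, H (a * m * t) (s t)}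
        ((∏ t ∈ T, cr (s t)) * δ - ε)}.Finite := by
  refine (finMR K ω hω r hr T hT s A δ ε hA hε).subset ?_
  rintro m ⟨h1, h2, h3⟩
  refine ⟨h1, h2, fun h => h3 ?_⟩
  intro ε' hε'
  refine (h ε' hε').mono fun X hX => ?_
  have e : BB r X ∩ {a | a ∈ A ∧ ∀ t ∈ T, (killed ω (a * m * t : 𝓞 K)).ncard = 3 ^ s t} =
      BB r X ∩ {a | a ∈ A ∧ ∀ t ∈ T, H (a * m * t) (s t)} := by
    ext a
    refine and_congr_right fun ha => and_congr_right fun _ => ?_
    refine forall_congr' fun t => forall_congr' fun ht => ?_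
    exact hH _ _ (facts_three K hω ha.2.1 h1 (hT t ht) ((h2 t ht).sc
      (SC.mul (SC.mul ha.2.2 (SC.refl m)) (SC.refl t))))
  rw [← e]
  exact hX

end Run7.h460.JR
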