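import Pool.Agent.Run7.h460.JR.MonoR
import Pool.Agent.Run7.h460.JL.Cube2

/-!
# The joint law of the orders of the Selmer groups over the ring of integers
-/

set_option autoImplicit false
set_option linter.unusedVariables false
set_option linter.unusedSectionVars false

open scoped Classical

namespace Run7.h460.JR

open Finset Filter
open NumberField
open Pool.Agent.Y692.QS (Ei w nr)
open Pool.Agent.Y699.E (nrm prm prm_ne_zero prm_mul prm_one)
open Pool.Agent.Y703.CT (Dt pD)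
open Pool.Agent.Y703.XL (cr)
open Pool.Agent.Y703.XL.Inf (killed SelInf sel_card sel_triv)
open Pool.Agent.Y696.CTK (ED)
open Pool.Agent.XL6 (SelK KerV)
open Pool.Agent.N883.FF (nq ClP w_pow_inj isUnit_w nr_w_mul pB)
open Pool.Agent.N883.FF.Den3 (CF nq_zero)
open Run7.h707.TC (dlt UC NEc FamU FamO famO_iff tuple_ncard nx_iff Tt tt_pq Uu ee elw dlt_eq dt_U
  famU_ex nr_cube)
open Run7.h707.TD
open Run7.h707.TE (UO uO_iff)
open Run7.h707.TF
open Run7.h460.JL

/-- a monomial congruent to `1` modulo `3` whose norm is not `1` modulo `9` -/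
theorem form_A {m : ℕ} (n : Fin m → ℕ) {a : Fin m → Ei} (ha : ∀ k, FamU (a k))
    (h3 : (3 : Ei) ∣ dlt n a - 1) (h9 : ¬ (9 : ℤ) ∣ nr (dlt n a) - 1) :
    ∃ (J : Type) (_ : Fintype J) (_ : Nonempty J) (π : J → Ei) (e : J → ZMod 3) (c : Ei),
      Dt π e ∧ c ≠ 0 ∧ dlt n a = pD π e * c ^ 3 ∧ ¬ (9 : ℤ) ∣ nr (pD π e) - 1 := by
  choose i M S hS hM haa using fun k => famU_ex (ha k)
  have hae : a = fun k => elw (i k) (M k) (S k) := funext haa
  obtain ⟨c, hc, hcp, hd⟩ := dlt_eq n i hM hS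
  rw [← hae] at hd
  have hD := dt_U (tt_pq hS) (ee M (fun k => (n k : ZMod 3)) S)
  obtain ⟨y, hy⟩ : ∃ y : ZMod 3, y = ∑ k, (n k : ZMod 3) * i k := ⟨_, rfl⟩
  rw [← hy] at hd
  have hpD := Pool.Agent.R419.CE.three_pD hD
  obtain ⟨P, hP⟩ : ∃ P : Ei, P = pD
      (fun π : ↥(Uu (Tt S) (ee M (fun k => (n k : ZMod 3)) S)) => (π : Ei))
      (fun π => ee M (fun k => (n k : ZMod 3)) S π) := ⟨_, rfl⟩
  have hPB : pB (fun π : ↥(Uu (Tt S) (ee M (fun k => (n k : ZMod 3)) S)) => (π : Ei))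
      (fun π => ee M (fun k => (n k : ZMod 3)) S π) y = w ^ y.val * P := by rw [hP]; rfl
  rw [hPB] at hd
  rw [← hP] at hpD
  have hpc : (3 : Ei) ∣ P * c ^ 3 - 1 := by
    have h1 : prm (P * c ^ 3) := prm_mul hpD (by
      rw [pow_succ, pow_two]
      exact prm_mul (prm_mul hcp hcp) hcp)
    exact h1
  have hy0 : y = 0 := by
    have h1 : (3 : Ei) ∣ w ^ y.val - 1 := by
      rw [hd] at h3
      have e1 : w ^ y.val - 1 = (w ^ y.val * P * c ^ 3 - 1) - w ^ y.val * (P * c ^ 3 - 1) := by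
        ring
      rw [e1]
      exact dvd_sub h3 (Dvd.dvd.mul_left hpc _)
    exact w_pow_inj (b := 0) (by simpa using h1)
  subst hy0
  rw [ZMod.val_zero, pow_zero, one_mul] at hd
  have h9' : ¬ (9 : ℤ) ∣ nr P - 1 := by
    intro h
    apply h9
    obtain ⟨t, ht⟩ := nr_cube hcp
    have h1 : nr (c ^ 3) = 1 + 9 * t := by linarith
    rw [hd, Pool.Agent.Y692.QS.nr_mul, h1]
    have e1 : nr P * (1 + 9 * t) - 1 = (nr P - 1) + 9 * (nr P * t) := by ring
    rw [e1]
    exact dvd_add h (dvd_mul_right _ _)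
  have hne : Nonempty ↥(Uu (Tt S) (ee M (fun k => (n k : ZMod 3)) S)) := by
    rw [← not_isEmpty_iff]
    intro hn
    apply h9'
    rw [hP]
    unfold Pool.Agent.Y703.CT.pD
    rw [Finset.univ_eq_empty, Finset.prod_empty]
    decide
  exact ⟨_, inferInstance, hne, _, _, c, hD, hc, by rw [hd, hP], by rw [← hP]; exact h9'⟩

section
variable {K : Type} [Field K] [NumberField K]

/-- the facts on one element -/
structure Facts (ω : K) (x : 𝓞 K) : Prop where
  ne : (x : K) ≠ 0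
  nc : ∀ t : K, t ^ 3 ≠ (x : K)
  sel : (SelK (x : K)).ncard = 3 * (killed ω (x : K)).ncard
  rk : ∃ k : ℕ, (killed ω (x : K)).ncard = 3 ^ k ∧
    Module.finrank ℤ (ED (x : K)).toAffine.Point ≤ 2 * k
  triv : (killed ω (x : K)).ncard = 1 ↔ ∀ y : SelInf (x : K), y = 0

theorem cube_mod {n : ℤ} (h3 : (3 : ℤ) ∣ n ^ 3 - 1) : (9 : ℤ) ∣ n ^ 3 - 1 := by
  have h1 : n % 3 = 0 ∨ n % 3 = 1 ∨ n % 3 = 2 := by omega
  obtain ⟨k, hk⟩ : ∃ k, n = 3 * k + n % 3 := ⟨n / 3, by omega⟩
  rcases h1 with h | h | h <;> rw [h] at hk <;> subst hk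
  · exfalso
    obtain ⟨t, ht⟩ := h3
    have : (3 * k + 0) ^ 3 = 3 * (9 * k ^ 3) := by ring
    omega
  · exact ⟨3 * k ^ 3 + 3 * k ^ 2 + k, by ring⟩
  · exfalso
    obtain ⟨t, ht⟩ := h3
    have : (3 * k + 2) ^ 3 = 3 * (9 * k ^ 3 + 18 * k ^ 2 + 12 * k + 2) + 2 := by ring
    omega

/-- an element that is `1` modulo `3` has a norm that is `1` modulo `3` -/
theorem norm_three (j : Ei ≃+* 𝓞 K) (hj : ∀ z : Ei, Algebra.norm ℤ (j z) = nr z) {x : 𝓞 K}
    (h : (3 : 𝓞 K) ∣ x - 1) : (3 : ℤ) ∣ Algebra.norm ℤ x - 1 := by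
  obtain ⟨z, rfl⟩ := j.surjective x
  rw [hj]
  rw [← map_one j, dvd3] at h
  obtain ⟨t, ht⟩ := nq_spec (p := z) h
  exact ⟨3 * t + (nq z).val, by linarith⟩

/-- not a cube -/
theorem nc_of [IsCyclotomicExtension {3} ℚ K] (j : Ei ≃+* 𝓞 K)
    (hj : ∀ z : Ei, Algebra.norm ℤ (j z) = nr z) {x : 𝓞 K} (h3 : (3 : 𝓞 K) ∣ x - 1)
    (h9 : ¬ (9 : ℤ) ∣ Algebra.norm ℤ x - 1) (t : K) : t ^ 3 ≠ (x : K) := by
  intro h
  have ht : _root_.IsIntegral ℤ t := by
    apply _root_.IsIntegral.of_pow (n := 3) (by norm_num)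
    rw [h]
    exact RingOfIntegers.isIntegral_coe x
  obtain ⟨s, rfl⟩ : ∃ s : 𝓞 K, (s : K) = t := ⟨⟨t, ht⟩, rfl⟩
  have h1 : s ^ 3 = x := by
    apply RingOfIntegers.coe_injective
    rw [map_pow]
    exact h
  apply h9
  have h4 := norm_three j hj h3
  rw [← h1, map_pow] at h4 ⊢
  exact cube_mod h4

end

section
variable {K : Type} [Field K] [NumberField K] {m q : ℕ}

theorem sc_tw {c : Fin q → 𝓞 K} {e : Fin q → Fin m → ℕ} {r a : Fin m → 𝓞 K} (h : InC r a)
    (t : Fin q) : SC (tw c e a t) (tw c e r t) := by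
  have hp : ∀ (x y : 𝓞 K) (n : ℕ), SC x y → SC (x ^ n) (y ^ n) := by
    intro x y n hxy
    induction n with
    | zero => rw [pow_zero, pow_zero]; exact SC.refl _
    | succ n ih => rw [pow_succ, pow_succ]; exact ih.mul hxy
  have hs : ∀ s : Finset (Fin m), SC (∏ i ∈ s, a i ^ e t i) (∏ i ∈ s, r i ^ e t i) := by
    intro s
    induction s using Finset.induction_on with
    | empty => rw [prod_empty, prod_empty]; exact SC.refl _
    | insert i s hi ih =>
      rw [prod_insert hi, prod_insert hi]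
      exact (hp _ _ _ (h i).2).mul ih
  exact (SC.refl (c t)).mul (hs univ)

/-- **The joint law.** -/
theorem finR (K : Type) [Field K] [NumberField K] [IsCyclotomicExtension {3} ℚ K] (ω : K)
    (hω : ω ^ 2 + ω + 1 = 0)
    (c : Fin q → 𝓞 K) (e : Fin q → Fin m → ℕ) (hc : ∀ t, FamO (c t))
    (he : ∀ t, ∃ i, ¬ 3 ∣ e t i) (hsep : ∀ t t', t ≠ t' → ¬ Rel c e t t')
    (r : Fin m → 𝓞 K) (hr : ∀ i, FamO (r i)) (h3 : ∀ t, (3 : 𝓞 K) ∣ tw c e r t - 1)
    (h9 : ∀ t, ¬ (9 : ℤ) ∣ Algebra.norm ℤ (tw c e r t) - 1) :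
    (∃ (C : ℝ) (X₀ : ℕ), 0 < C ∧ ∀ X : ℕ, X₀ ≤ X → C * (X : ℝ) ^ m ≤ num X (InC r)) ∧
    (∀ s : Fin q → ℕ, Tendsto (fun X : ℕ =>
        num X (fun a => InC r a ∧ ∀ t, (killed ω (tw c e a t : K)).ncard = 3 ^ s t) /
          num X (InC r)) atTop (nhds (∏ t, cr (s t)))) ∧
    ∀ a, InC r a → ∀ t, Facts ω (tw c e a t) := by
  have h1 : ∀ t, ¬ IsOne (tw c e r t) := fun t h => h9 t h.2
  obtain ⟨hfirst, -⟩ := finJ K c e hc he hsep r hr h1
  obtain ⟨⟨j, hj⟩, -⟩ := Pool.Agent.Y455.CTK.jex K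
  -- the coefficients
  have hex : ∀ x : 𝓞 K, FamO x → ∃ p : ZMod 3 × Ei, ClP p.2 ∧ j (ew p) = x := by
    intro x hx
    obtain ⟨z, rfl⟩ := j.surjective x
    have h1 : FamU z := (famO_iff j z).1 hx
    obtain ⟨p, hp, hpz⟩ := (famU_ew (X := (nr z).toNat)).1 ⟨Int.self_le_toNat _, h1⟩
    exact ⟨p, (mem_CF'.1 (mem_product.1 hp).2).2, by rw [hpz]⟩
  choose pb hpb hpc using fun t => hex (c t) (hc t)
  choose pr hpr hprr using fun i => hex (r i) (hr i)
  obtain ⟨u, hu⟩ : ∃ u : Fin m → ZMod 3 × ZMod 3, u = fun i => cls (pr i) := ⟨_, rfl⟩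
  have he' : ∀ t, ∃ k, (e t k : ZMod 3) ≠ 0 := by
    intro t
    obtain ⟨i, hi⟩ := he t
    exact ⟨i, fun h => hi ((ZMod.natCast_eq_zero_iff _ 3).1 h)⟩
  -- the monomials
  have htw : ∀ (b : Fin m → Ei) (t : Fin q), tw c e (fun k => j (b k)) t =
      j (dlt (e t) b * ew (pb t)) := by
    intro b t
    unfold tw Run7.h707.TC.dlt
    rw [map_mul, map_prod, hpc, mul_comm]
    simp only [map_pow]
  have hsep' : ∀ t t', t ≠ t' → ∀ f : ℕ, (f = 1 ∨ f = 2) →
      (∀ k, (e t k : ZMod 3) + f * e t' k = 0) →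
      ¬ ∃ x : Ei, ew (pb t) * ew (pb t') ^ f = x ^ 3 := by
    intro t t' htt f hf hk
    rintro ⟨x, hx⟩
    refine hsep t t' htt ⟨f, hf, fun i => ?_, j x, ?_⟩
    · have h2 := hk i
      rw [← ZMod.natCast_eq_zero_iff _ 3]
      push_cast
      exact h2
    · rw [← hpc t, ← hpc t', ← map_pow, ← map_mul, hx, map_pow]
  have hprm : ∀ t : Fin q, ∀ k, prm (Fin.append pr pb k).2 := fun t =>
    append_all (P := fun r : ZMod 3 × Ei => prm r.2) (fun k => (hpr k).1) fun l => (hpb l).1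
  have htwr : ∀ t, tw c e r t = j (dlt (e t) (fun k => ew (pr k)) * ew (pb t)) := by
    intro t
    rw [← htw]
    congr 1
    exact (funext hprr).symm
  have hu' : ∀ t, ∑ k, e t k • u k + cls (pb t) ≠ 0 := by
    intro t h0
    apply h1 t
    have h3 := one_cls (nnq e t) (hprm t)
    rw [cls_nn, ← append_ew', dlt_nn] at h3
    have h4 : ∑ k, e t k • cls (pr k) + cls (pb t) = 0 := by rw [← h0, hu]
    have h5 := h3.2 h4
    unfold IsOne
    rw [htwr t, hj]
    refine ⟨?_, h5.2⟩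
    rw [← map_one j, dvd3]
    exact h5.1
  have hu1 : ∀ t, (∑ k, e t k • u k + cls (pb t)).1 = 0 := by
    intro t
    have h5 := h3 t
    rw [htwr t, ← map_one j, dvd3] at h5
    have h5' := dlt_nn e t (fun k => ew (pr k)) (fun l => ew (pb l))
    beta_reduce at h5'
    rw [← h5', append_ew', dlt_ew] at h5
    have h6 : (3 : Ei) ∣ (w : Ei) ^ (∑ k, (nnq e t k : ZMod 3) * (Fin.append pr pb k).1).val - 1 := by
      have h7 := prm_dlt (nnq e t) (hprm t)
      have e1 : (w : Ei) ^ (∑ k, (nnq e t k : ZMod 3) * (Fin.append pr pb k).1).val - 1 =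
          (w ^ (∑ k, (nnq e t k : ZMod 3) * (Fin.append pr pb k).1).val *
            dlt (nnq e t) (fun k => (Fin.append pr pb k).2) - 1) -
          w ^ (∑ k, (nnq e t k : ZMod 3) * (Fin.append pr pb k).1).val *
            (dlt (nnq e t) (fun k => (Fin.append pr pb k).2) - 1) := by ring
      rw [e1]
      exact dvd_sub h5 (Dvd.dvd.mul_left h7 _)
    have h8 : ∑ k, (nnq e t k : ZMod 3) * (Fin.append pr pb k).1 = 0 :=
      w_pow_inj (b := 0) (by simpa using h6)
    have h10 := cls_nn e t pr pb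
    rw [hu]
    rw [← h10, fst_sum, ← h8]
    refine sum_congr rfl fun k _ => ?_
    rw [← nsmul_eq_mul]
    rfl
  -- the classes
  have hcls : ∀ X (b : Fin m → Ei), b ∈ SA m X →
      (InC r (fun k => j (b k)) ↔ CQ (fun u' => u' = u) b) := by
    intro X b hb
    obtain ⟨p, hp, rfl⟩ := ex_ew hb
    rw [cq_ew hp]
    unfold InC
    constructor
    · intro h
      rw [hu]
      funext k
      obtain ⟨-, h3, h4⟩ := h k
      rw [← hprr k, dvd3] at h3
      rw [← hprr k, hj, hj] at h4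
      exact (sc_cls (hp k) (hpr k).1).1 ⟨h3, h4⟩
    · intro h k
      have h2 : cls (p k) = cls (pr k) := by
        have := congrFun h k
        rw [hu] at this
        exact this
      obtain ⟨h3, h4⟩ := (sc_cls (hp k) (hpr k).1).2 h2
      refine ⟨(famO_iff j _).2 (hb k).2, ?_, ?_⟩
      · rw [← hprr k, dvd3]
        exact h3
      · rw [← hprr k, hj, hj]
        exact h4
  -- the facts
  have hfacts : ∀ a, InC r a → ∀ t, Facts ω (tw c e a t) := by
    intro a ha t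
    have hsc := sc_tw (c := c) (e := e) ha t
    have k3 : (3 : 𝓞 K) ∣ tw c e a t - 1 := by
      have := dvd_add hsc.1 (h3 t)
      rwa [sub_add_sub_cancel] at this
    have k9 : ¬ (9 : ℤ) ∣ Algebra.norm ℤ (tw c e a t) - 1 := by
      intro h
      apply h9 t
      have := dvd_sub h hsc.2
      rwa [sub_sub_sub_cancel_left] at this
    have hnc := nc_of j hj k3 k9
    have hne : (tw c e a t : K) ≠ 0 := by
      intro h
      exact hnc 0 (by rw [h, zero_pow three_ne_zero])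
    obtain ⟨b, rfl⟩ : ∃ b : Fin m → Ei, (fun k => j (b k)) = a :=
      ⟨fun k => j.symm (a k), funext fun k => j.apply_symm_apply _⟩
    have hfu : ∀ l, FamU (ew (pb l)) := fun l => (famO_iff j _).1 (by rw [hpc]; exact hc l)
    have hall : ∀ k, FamU (Fin.append b (fun l => ew (pb l)) k) :=
      append_all (P := fun x : Ei => FamU x) (fun k => (famO_iff j _).1 (ha k).1) hfu
    have k3' : (3 : Ei) ∣ dlt (nnq e t) (Fin.append b fun l => ew (pb l)) - 1 := by
      rw [dlt_nn, ← dvd3 (j := j), map_one, ← htw]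
      exact k3
    have k9' : ¬ (9 : ℤ) ∣ nr (dlt (nnq e t) (Fin.append b fun l => ew (pb l))) - 1 := by
      rw [dlt_nn, ← hj, ← htw]
      exact k9
    obtain ⟨J, _, _, π, ee, x, hD, hx, hd, hn9⟩ := form_A (nnq e t) hall k3' k9'
    rw [dlt_nn] at hd
    obtain ⟨k1, k2⟩ := main_c (K := K) j hD hn9 hx
    obtain ⟨k, hk⟩ := Pool.Agent.R419.KL.ker_pow (π := π) (e := ee)
    have hsel := sel_card hne hω hnc
    have hE : ∀ D D' : Ei, D = D' → (SelK (j D : K)).ncard = (SelK (j D' : K)).ncard := by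
      rintro D D' rfl
      rfl
    have hR : ∀ D D' : Ei, D = D' → Module.finrank ℤ (ED (j D : K)).toAffine.Point =
        Module.finrank ℤ (ED (j D' : K)).toAffine.Point := by
      rintro D D' rfl
      rfl
    have hE' : ∀ D D' : 𝓞 K, D = D' → (SelK (D : K)).ncard = (SelK (D' : K)).ncard := by
      rintro D D' rfl
      rfl
    have hR' : ∀ D D' : 𝓞 K, D = D' → Module.finrank ℤ (ED (D : K)).toAffine.Point =
        Module.finrank ℤ (ED (D' : K)).toAffine.Point := by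
      rintro D D' rfl
      rfl
    have e1 : (SelK (tw c e (fun k => j (b k)) t : K)).ncard = 3 ^ (k + 1) :=
      ((hE' _ _ (htw b t)).trans (hE _ _ hd)).trans (k1.trans hk)
    have e2 : 3 * (killed ω (tw c e (fun k => j (b k)) t : K)).ncard = 3 ^ (k + 1) :=
      hsel.symm.trans e1
    have e3 : Module.finrank ℤ (ED (tw c e (fun k => j (b k)) t : K)).toAffine.Point ≤ 2 * k := by
      rw [hR' _ _ (htw b t), hR _ _ hd]
      exact k2 k hk.le
    refine ⟨hne, hnc, hsel, ⟨k, ?_, e3⟩, sel_triv hne hω⟩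
    rw [pow_succ'] at e2
    exact Nat.eq_of_mul_eq_mul_left (by norm_num) e2
  refine ⟨hfirst, ?_, hfacts⟩
  -- the numbers
  have hnum : ∀ (P : (Fin m → 𝓞 K) → Prop) (X : ℕ), num X (fun a => InC r a ∧ P a) =
      ({b : Fin m → Ei | b ∈ SA m X ∧ (CQ (fun u' => u' = u) b ∧ P fun k => j (b k))}.ncard : ℝ) := by
    intro P X
    unfold num
    rw [tuple_ncard j]
    congr 2
    ext b
    simp only [Set.mem_ofPred_eq]
    constructor
    · rintro ⟨h2, h3, h4⟩
      have h5 : b ∈ SA m X := fun k => ⟨by rw [← hj]; exact h2 k, (famO_iff j _).1 (h3 k).1⟩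
      exact ⟨h5, (hcls X b h5).1 h3, h4⟩
    · rintro ⟨h2, h3, h4⟩
      exact ⟨fun k => by rw [hj]; exact (h2 k).1, (hcls X b h2).2 h3, h4⟩
  have hdl : ∀ (P : (Fin m → 𝓞 K) → Prop) (L : ℝ),
      DL (SA m) (NA m) (fun b => CQ (fun u' => u' = u) b ∧ P fun k => j (b k)) L →
      Tendsto (fun X : ℕ => num X (fun a => InC r a ∧ P a) / NA m X) atTop (nhds L) := by
    intro P L h
    unfold DL at h
    refine Filter.Tendsto.congr (fun X => ?_) h
    rw [hnum P X]
  have hnumT : ∀ X : ℕ, num X (InC r) = num X (fun a => InC r a ∧ True) := by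
    intro X
    unfold num
    simp only [and_true]
  have hbase : Tendsto (fun X : ℕ => num X (InC r) / NA m X) atTop (nhds (1 / 9 ^ m)) := by
    have h2 := law_T e j hpb he' hsep' hu' ∅
    rw [card_empty, pow_zero, mul_one] at h2
    have h3 := hdl (fun _ => True) (1 / 9 ^ m) (h2.congr fun X b _ => by simp)
    simp only [hnumT]
    exact h3
  obtain ⟨C, X₀, hC, hlow⟩ := AT_low (m := m)
  have hratio : ∀ (P : (Fin m → 𝓞 K) → Prop) (L : ℝ),
      Tendsto (fun X : ℕ => num X (fun a => InC r a ∧ P a) / NA m X) atTop (nhds (1 / 9 ^ m * L)) →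
      Tendsto (fun X : ℕ => num X (fun a => InC r a ∧ P a) / num X (InC r)) atTop (nhds L) := by
    intro P L h
    have h2 := h.div hbase (by positivity)
    have e1 : (1 : ℝ) / 9 ^ m * L / (1 / 9 ^ m) = L := by
      field_simp
    rw [e1] at h2
    refine h2.congr' ?_
    filter_upwards [eventually_ge_atTop (max X₀ 1)] with X hX
    have h3 : (0 : ℝ) < NA m X := by
      have h4 := hlow X ((le_max_left _ _).trans hX)
      have h5 : (0 : ℝ) < X := by exact_mod_cast (le_max_right _ _).trans hX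
      exact lt_of_lt_of_le (by positivity) h4
    show num X (fun a => InC r a ∧ P a) / NA m X / (num X (InC r) / NA m X) = _
    rw [div_div_div_cancel_right₀ h3.ne']
  intro s
  refine hratio (fun a => ∀ t, (killed ω (tw c e a t : K)).ncard = 3 ^ s t) _ (hdl _ _ ?_)
  have h2 := law_R (K := K) e j hpb he' hsep' hu' hu1 s
  refine h2.congr fun X b hb => ?_
  refine and_congr_right fun hcq => forall_congr' fun t => ?_
  have hin := (hcls X b hb).2 hcq
  have hF := hfacts _ hin t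
  have hE' : ∀ D D' : 𝓞 K, D = D' → (SelK (D : K)).ncard = (SelK (D' : K)).ncard := by
    rintro D D' rfl
    rfl
  rw [← hE' _ _ (htw b t), hF.sel, pow_succ']
  exact ⟨fun h => Nat.eq_of_mul_eq_mul_left (by norm_num) h, fun h => by rw [h]⟩

end

end Run7.h460.JR
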