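import Pool.Agent.Run7.h460.JL.Uni

/-!
# Every set of positive upper density realises every bounded function

The version of `Run7/h460/JL/Uni.lean` for a function `g` with values in the natural numbers instead
of a property. For finitely many allowed `v` the numbers `g (U D + v)` are asymptotically independent
and take the value `s` with probability `p s > 0`. Then every set `A` of positive upper density
contains different `d_0, d_1, ...` such that `g (∑_{i ∈ T} U d_i) = f T` for all finite sets `T` with at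
least two elements and `|T|` prime to three, where `f` is any function for which the `f (T ∪ {k})` are
bounded for every `T`.
-/

set_option autoImplicit false

open scoped Classical

namespace Run7.h460.JR.UniR

open Finset Filter Topology
open Run7.h460.JL.Mix
open Run7.h460.JL.Uni (Large tr card_tr mem_tr ext)

variable {α V : Type*} [AddCommGroup V]

/-- the event with the values `s` for the elements of `R`, translated by `m` -/
def Ev (U : α → V) (g : V → ℕ) (m : V) (R : Finset V) (s : V → ℕ) : Set α :=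
  {D | ∀ w ∈ R, g (U D + (m + w)) = s w}

/-- the law -/
structure Law (S : ℕ → Finset α) (U : α → V) (g : V → ℕ) (ok : V → Prop) (p : ℕ → ℝ) : Prop where
  inf : Tendsto (fun X => ((S X).card : ℝ)) atTop atTop
  p0 : ∀ k, 0 < p k
  p1 : ∀ k, p k ≤ 1
  inj : ∀ X X' D D', D ∈ S X → D' ∈ S X' → U D = U D' → D = D'
  law : ∀ (P : Finset V) (s : V → ℕ), (∀ v ∈ P, ok v) →
    Tendsto (fun X => cn (S X) {D | ∀ v ∈ P, g (U D + v) = s v} /
      ((S X).card : ℝ)) atTop (𝓝 (∏ v ∈ P, p (s v)))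

/-- the sum of the classes of `n` elements is allowed if `n + 1` is prime to `3` -/
def OkW (S : ℕ → Finset α) (U : α → V) (ok : V → Prop) : Prop :=
  ∀ (T : Finset ℕ) (u : ℕ → V), (∀ i ∈ T, ∃ X, ∃ D ∈ S X, U D = u i) →
    ¬ 3 ∣ T.card + 1 → ok (∑ i ∈ T, u i)

variable {S : ℕ → Finset α} {U : α → V} {g : V → ℕ} {ok : V → Prop} {p : ℕ → ℝ}

theorem Law.ne (h : Law S U g ok p) : ∀ᶠ X in atTop, (S X).Nonempty := by
  filter_upwards [h.inf.eventually_gt_atTop 0] with X hX
  rw [← card_pos]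
  exact_mod_cast hX

/-- the probability of the values `s` -/
noncomputable def pr (p : ℕ → ℝ) (R : Finset V) (s : V → ℕ) : ℝ := ∏ w ∈ R, p (s w)

theorem Law.pr_pos (h : Law S U g ok p) (R : Finset V) (s : V → ℕ) : 0 < pr p R s :=
  prod_pos fun w _ => h.p0 (s w)

theorem Law.pr_le (h : Law S U g ok p) (R : Finset V) (s : V → ℕ) : pr p R s ≤ 1 :=
  prod_le_one (fun w _ => (h.p0 (s w)).le) fun w _ => h.p1 (s w)

theorem prod_tr (m : V) (R : Finset V) (f : V → ℝ) : ∏ x ∈ tr m R, f (x - m) = ∏ w ∈ R, f w := by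
  unfold tr
  rw [prod_image fun _ _ _ _ h => add_left_cancel h]
  exact prod_congr rfl fun w _ => by rw [add_sub_cancel_left]

theorem Ev_eq {m : V} {R : Finset V} {s : V → ℕ} : Ev U g m R s =
    {D | ∀ x ∈ tr m R, g (U D + x) = s (x - m)} := by
  ext D
  constructor
  · intro h x hx
    obtain ⟨w, hw, rfl⟩ := mem_tr.1 hx
    rw [add_sub_cancel_left]
    exact h w hw
  · intro h w hw
    have h1 := h (m + w) (mem_tr.2 ⟨w, hw, rfl⟩)
    rw [add_sub_cancel_left] at h1
    exact h1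

theorem Law.ev (h : Law S U g ok p) {m : V} {R : Finset V} (s : V → ℕ)
    (hR : ∀ w ∈ R, ok (m + w)) :
    Tendsto (fun X => cn (S X) (Ev U g m R s) / ((S X).card : ℝ)) atTop (𝓝 (pr p R s)) := by
  have h1 := h.law (tr m R) (fun x => s (x - m)) (fun x hx => by
    obtain ⟨w, hw, rfl⟩ := mem_tr.1 hx
    exact hR w hw)
  rw [prod_tr m R (fun w => p (s w)), ← Ev_eq] at h1
  exact h1

theorem Law.ev2 (h : Law S U g ok p) {m m' : V} {R : Finset V} (s : V → ℕ)
    (hR : ∀ w ∈ R, ok (m + w))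
    (hR' : ∀ w ∈ R, ok (m' + w)) (hmm : ∀ w ∈ R, ∀ w' ∈ R, m + w ≠ m' + w') :
    Tendsto (fun X => cn (S X) (Ev U g m R s ∩ Ev U g m' R s) / ((S X).card : ℝ)) atTop
      (𝓝 (pr p R s * pr p R s)) := by
  have hd : Disjoint (tr m R) (tr m' R) := by
    rw [disjoint_left]
    intro x hx hx'
    obtain ⟨w, hw, rfl⟩ := mem_tr.1 hx
    obtain ⟨w', hw', he⟩ := mem_tr.1 hx'
    exact hmm w hw w' hw' he.symm
  have h1 := h.law (tr m R ∪ tr m' R) (fun x => if x ∈ tr m R then s (x - m) else s (x - m'))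
    (fun x hx => by
      rcases mem_union.1 hx with h1 | h1
      · obtain ⟨w, hw, rfl⟩ := mem_tr.1 h1
        exact hR w hw
      · obtain ⟨w, hw, rfl⟩ := mem_tr.1 h1
        exact hR' w hw)
  rw [prod_union hd] at h1
  have e1 : ∏ x ∈ tr m R, p (if x ∈ tr m R then s (x - m) else s (x - m')) = pr p R s := by
    have := prod_tr m R (fun w => p (s w))
    unfold pr
    rw [← this]
    exact prod_congr rfl fun x hx => by rw [if_pos hx]
  have e2 : ∏ x ∈ tr m' R, p (if x ∈ tr m R then s (x - m) else s (x - m')) = pr p R s := by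
    have := prod_tr m' R (fun w => p (s w))
    unfold pr
    rw [← this]
    exact prod_congr rfl fun x hx => by rw [if_neg (disjoint_right.1 hd hx)]
  rw [e1, e2] at h1
  have e3 : Ev U g m R s ∩ Ev U g m' R s = {D | ∀ x ∈ tr m R ∪ tr m' R,
      g (U D + x) = if x ∈ tr m R then s (x - m) else s (x - m')} := by
    rw [Ev_eq, Ev_eq]
    ext D
    simp only [Set.mem_inter_iff, Set.mem_ofPred_eq]
    constructor
    · rintro ⟨a1, a2⟩ x hx
      by_cases h2 : x ∈ tr m R
      · rw [if_pos h2]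
        exact a1 x h2
      · rw [if_neg h2]
        exact a2 x ((mem_union.1 hx).resolve_left h2)
    · intro a1
      refine ⟨fun x hx => ?_, fun x hx => ?_⟩
      · have := a1 x (mem_union_left _ hx)
        rwa [if_pos hx] at this
      · have := a1 x (mem_union_right _ hx)
        rwa [if_neg (disjoint_right.1 hd hx)] at this
  rw [e3]
  exact h1

/-- **Mixing**: for all but finitely many `m` -/
theorem Law.finite_exc (h : Law S U g ok p) {R : Finset V} (s : V → ℕ) {A : Set α} {δ : ℝ}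
    (hA : UD S A δ) {ε : ℝ} (hε : 0 < ε) :
    {m : V | (∀ w ∈ R, ok (m + w)) ∧ ¬ UD S (A ∩ Ev U g m R s) (pr p R s * δ - ε)}.Finite := by
  by_contra hinf
  set E := {m : V | (∀ w ∈ R, ok (m + w)) ∧ ¬ UD S (A ∩ Ev U g m R s) (pr p R s * δ - ε)} with hE
  have hinf : E.Infinite := hinf
  obtain ⟨f, hf1, hf2⟩ := exists_seq_of_forall_finset_exists (fun m => m ∈ E)
    (fun m m' : V => ∀ w ∈ R, ∀ w' ∈ R, m + w ≠ m' + w') (fun s _ => by
      obtain ⟨y, hy, hyF⟩ := hinf.exists_notMem_finset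
        (s.biUnion fun x => (R ×ˢ R).image fun q => (x + q.1) - q.2)
      refine ⟨y, hy, fun x hx w hw w' hw' he => hyF ?_⟩
      rw [mem_biUnion]
      refine ⟨x, hx, mem_image.2 ⟨(w, w'), mem_product.2 ⟨hw, hw'⟩, ?_⟩⟩
      show (x + w) - w' = y
      rw [he, add_sub_cancel_right])
  have hsep : ∀ i j, i ≠ j → ∀ w ∈ R, ∀ w' ∈ R, f i + w ≠ f j + w' := by
    intro i j hij w hw w' hw'
    rcases lt_or_gt_of_ne hij with h1 | h1
    · exact hf2 i j h1 w hw w' hw'
    · exact (hf2 j i h1 w' hw' w hw).symm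
  obtain ⟨i, hi⟩ := mix h.ne (P := fun i => Ev U g (f i) R s) (h.pr_pos R s).le (h.pr_le R s)
    (fun i => h.ev s (hf1 i).1)
    (fun i j hij => h.ev2 s (hf1 i).1 (hf1 j).1 (hsep i j hij)) hA hε
  exact (hf1 i).2 hi

theorem Law.large_exc (h : Law S U g ok p) {R : Finset V} (s : V → ℕ) {A : Set α}
    (hA : Large S A) :
    {m : V | (∀ w ∈ R, ok (m + w)) ∧ ¬ Large S (A ∩ Ev U g m R s)}.Finite := by
  obtain ⟨δ, h1, h2⟩ := hA
  have hp := h.pr_pos R s
  refine (h.finite_exc (R := R) s h2 (ε := pr p R s * δ / 2) (by positivity)).subset ?_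
  rintro m ⟨h3, h4⟩
  refine ⟨h3, fun h5 => h4 ⟨_, ?_, h5⟩⟩
  have : 0 < pr p R s * δ := by positivity
  linarith

theorem Law.large_inf (h : Law S U g ok p) {A : Set α} (hA : Large S A) (F : Finset α) :
    ∃ D ∈ A, (∃ X, D ∈ S X) ∧ D ∉ F := by
  obtain ⟨δ, h1, h2⟩ := hA
  have h3 := (h2 (δ / 2) (by positivity)).and_eventually
    (h.inf.eventually_gt_atTop ((F.card : ℝ) / (δ / 2)))
  obtain ⟨X, h4, h5⟩ := h3.exists
  rw [div_lt_iff₀ (by positivity)] at h5
  by_contra hcon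
  push Not at hcon
  have h6 : cn (S X) A ≤ (F.card : ℝ) := by
    unfold cn
    exact_mod_cast card_le_card (fun D hD => by
      rw [mem_filter] at hD
      exact hcon D hD.2 ⟨X, hD.1⟩)
  have h7 : (δ - δ / 2) * ((S X).card : ℝ) = ((S X).card : ℝ) * (δ / 2) := by ring
  linarith

/-- the values at the first `n` elements -/
def Pt (U : α → V) (g : V → ℕ) (n : ℕ) (u : ℕ → V) (f : Finset ℕ → ℕ) : Set α :=
  {D | ∀ T ⊆ range n, T.Nonempty → ¬ 3 ∣ T.card + 1 → g (U D + ∑ i ∈ T, u i) = f T}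

/-- the induction hypothesis; the admissible functions are bounded by `b` -/
structure Inv (S : ℕ → Finset α) (U : α → V) (g : V → ℕ) (A : Set α) (b : Finset ℕ → ℕ) (n : ℕ)
    (u : ℕ → V) : Prop where
  ad : ∀ i < n, ∃ X, ∃ D ∈ S X, U D = u i
  inj : ∀ T ⊆ range n, ∀ T' ⊆ range n, ∑ i ∈ T, u i = ∑ i ∈ T', u i → T = T'
  lg : ∀ f : Finset ℕ → ℕ, (∀ T, f T ≤ b T) → Large S (A ∩ Pt U g n u f)

theorem Inv.congr {A : Set α} {b : Finset ℕ → ℕ} {n : ℕ} {u v : ℕ → V} (h : Inv S U g A b n u)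
    (huv : ∀ i < n, u i = v i) : Inv S U g A b n v := by
  have hW : ∀ T ⊆ range n, ∑ i ∈ T, u i = ∑ i ∈ T, v i := fun T hT =>
    sum_congr rfl fun i hi => huv i (mem_range.1 (hT hi))
  refine ⟨fun i hi => huv i hi ▸ h.ad i hi, fun T hT T' hT' he => ?_, fun f hf => ?_⟩
  · rw [← hW T hT, ← hW T' hT'] at he
    exact h.inj T hT T' hT' he
  · refine (h.lg f hf).mono (Set.inter_subset_inter_right A fun D hD T hT hne h3 => ?_)
    rw [← hW T hT]
    exact hD T hT hne h3

/-- the functions on `R` with `f x ≤ b x` -/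
abbrev Bd {β : Type*} (R : Finset β) (b : β → ℕ) : Type _ := (x : ↥R) → Fin (b x + 1)

/-- the extension by zero -/
noncomputable def lift {β : Type*} {R : Finset β} {b : β → ℕ} (σ : Bd R b) : β → ℕ := fun x =>
  if h : x ∈ R then (σ ⟨x, h⟩ : ℕ) else 0

theorem lift_le {β : Type*} {R : Finset β} {b : β → ℕ} (σ : Bd R b) (x : β) : lift σ x ≤ b x := by
  unfold lift
  split_ifs with h
  · exact Nat.lt_succ_iff.1 (σ ⟨x, h⟩).2
  · exact Nat.zero_le _

theorem exists_lift {β : Type*} (R : Finset β) (b : β → ℕ) (f : β → ℕ) (hf : ∀ x ∈ R, f x ≤ b x) :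
    ∃ σ : Bd R b, ∀ x ∈ R, lift σ x = f x := by
  refine ⟨fun x => ⟨f x, Nat.lt_succ_iff.2 (hf x x.2)⟩, fun x hx => ?_⟩
  unfold lift
  rw [dif_pos hx]

theorem Law.step (h : Law S U g ok p) (hW : OkW S U ok) {A : Set α} {b : Finset ℕ → ℕ} {n : ℕ} {u : ℕ → V}
    (hI : Inv S U g A b n u) (f₀ : Finset ℕ → ℕ) (hf₀ : ∀ T, f₀ T ≤ b T) (F : Finset α) :
    ∃ D ∈ A, (∃ X, D ∈ S X) ∧ D ∉ F ∧ D ∈ Pt U g n u f₀ ∧
      Inv S U g A b (n + 1) (Function.update u n (U D)) := by
  obtain ⟨RA, hRA⟩ : ∃ RA : Finset V, RA = (range n).powerset.image fun T => ∑ i ∈ T, u i :=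
    ⟨_, rfl⟩
  obtain ⟨QT, hQT⟩ : ∃ QT : Finset (Finset ℕ), QT =
      (range n).powerset.filter fun T => ¬ 3 ∣ T.card + 2 := ⟨_, rfl⟩
  have hQTr : ∀ T ∈ QT, T ⊆ range n := by
    intro T hT
    rw [hQT, mem_filter, mem_powerset] at hT
    exact hT.1
  obtain ⟨R, hRd⟩ : ∃ R : Finset V, R = QT.image fun T => ∑ i ∈ T, u i := ⟨_, rfl⟩
  -- the set of a sum
  obtain ⟨τ, hτ⟩ : ∃ τ : V → Finset ℕ, ∀ T ∈ QT, τ (∑ i ∈ T, u i) = T := by
    refine ⟨fun w => if hw : ∃ T ∈ QT, ∑ i ∈ T, u i = w then hw.choose else ∅, fun T hT => ?_⟩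
    have hw : ∃ T' ∈ QT, ∑ i ∈ T', u i = ∑ i ∈ T, u i := ⟨T, hT, rfl⟩
    beta_reduce
    rw [dif_pos hw]
    exact hI.inj _ (hQTr _ hw.choose_spec.1) _ (hQTr _ hT) hw.choose_spec.2
  obtain ⟨bV, hbV⟩ : ∃ bV : V → ℕ, bV = fun w => b (insert n (τ w)) := ⟨_, rfl⟩
  have hnr : ∀ T ⊆ range n, n ∉ T := fun T hT h1 => lt_irrefl n (mem_range.1 (hT h1))
  -- the exceptional elements
  obtain ⟨EX, hEX⟩ : ∃ EX : Set V, EX = ⋃ (v : Bd (range n).powerset b), ⋃ (σ : Bd R bV),
      {m : V | (∀ x ∈ R, ok (m + x)) ∧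
        ¬ Large S ((A ∩ Pt U g n u (lift v)) ∩ Ev U g m R (lift σ))} := ⟨_, rfl⟩
  have hfin : EX.Finite := by
    rw [hEX]
    refine Set.finite_iUnion fun v => Set.finite_iUnion fun σ => ?_
    exact h.large_exc (lift σ) (hI.lg (lift v) (lift_le v))
  have hfin2 : (EX ∪ (((RA ×ˢ RA).image fun q => q.1 - q.2 : Finset V) : Set V)).Finite :=
    hfin.union (finite_toSet _)
  have hfin3 : {D : α | (∃ X, D ∈ S X) ∧ U D ∈ EX ∪ (((RA ×ˢ RA).image fun q => q.1 - q.2 :
      Finset V) : Set V)}.Finite := by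
    refine Set.Finite.of_injOn (f := U) (fun D hD => hD.2) ?_ hfin2
    rintro D ⟨⟨X, hX⟩, -⟩ D' ⟨⟨X', hX'⟩, -⟩ he
    exact h.inj X X' D D' hX hX' he
  obtain ⟨D, hD1, ⟨X, hX⟩, hD3⟩ := h.large_inf (hI.lg f₀ hf₀) (hfin3.toFinset ∪ F)
  rw [mem_union, not_or, Set.Finite.mem_toFinset] at hD3
  have hDe : U D ∉ EX ∪ (((RA ×ˢ RA).image fun q => q.1 - q.2 : Finset V) : Set V) :=
    fun h1 => hD3.1 ⟨⟨X, hX⟩, h1⟩
  have hD4 : U D ∉ EX := fun h1 => hDe (Or.inl h1)
  have hD5 : ∀ x ∈ RA, ∀ y ∈ RA, x - y ≠ U D := fun x hx y hy he => hDe (Or.inr (by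
    rw [mem_coe, mem_image]
    exact ⟨(x, y), mem_product.2 ⟨hx, hy⟩, he⟩))
  refine ⟨D, hD1.1, ⟨X, hX⟩, hD3.2, hD1.2, ?_⟩
  have hW1 : ∀ T ⊆ range n, ∑ i ∈ T, Function.update u n (U D) i = ∑ i ∈ T, u i := fun T hT =>
    sum_congr rfl fun i hi => Function.update_of_ne (fun h1 : i = n => hnr T hT (h1 ▸ hi)) _ _
  have hW2 : ∀ T ⊆ range n, ∑ i ∈ insert n T, Function.update u n (U D) i =
      U D + ∑ i ∈ T, u i := by
    intro T hT
    rw [sum_insert (hnr T hT), Function.update_self, hW1 T hT]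
  have hadU : ∀ i < n + 1, ∃ X, ∃ D' ∈ S X, U D' = Function.update u n (U D) i := by
    intro i hi
    rcases Nat.lt_succ_iff_lt_or_eq.1 hi with h1 | h1
    · rw [Function.update_of_ne h1.ne]
      exact hI.ad i h1
    · rw [h1, Function.update_self]
      exact ⟨X, D, hX, rfl⟩
  have hokD : ∀ x ∈ R, ok (U D + x) := by
    intro x hx
    rw [hRd] at hx
    obtain ⟨T, hT, rfl⟩ := mem_image.1 hx
    have hT1 := hQTr T hT
    rw [hQT] at hT
    obtain ⟨-, hT2⟩ := mem_filter.1 hT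
    have h2 := hW (insert n T) (Function.update u n (U D)) (fun i hi => by
      refine hadU i ?_
      rcases mem_insert.1 hi with h3 | h3
      · omega
      · have := mem_range.1 (hT1 h3)
        omega) (by
      rw [card_insert_of_notMem (hnr T hT1)]
      exact hT2)
    rw [hW2 T hT1] at h2
    exact h2
  have hsplit : ∀ T ⊆ range (n + 1), (T ⊆ range n) ∨ ∃ T' ⊆ range n, T = insert n T' := by
    intro T hT
    by_cases hn : n ∈ T
    · right
      refine ⟨T.erase n, fun i hi => ?_, (insert_erase hn).symm⟩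
      rw [mem_erase] at hi
      have := mem_range.1 (hT hi.2)
      exact mem_range.2 (by omega)
    · left
      intro i hi
      have h1 := mem_range.1 (hT hi)
      have h2 : i ≠ n := fun h2 => hn (h2 ▸ hi)
      exact mem_range.2 (by omega)
  have hRm : ∀ T ⊆ range n, ∑ i ∈ T, u i ∈ RA := fun T hT => by
    rw [hRA]
    exact mem_image.2 ⟨T, mem_powerset.2 hT, rfl⟩
  refine ⟨hadU, fun T hT T' hT' he => ?_, fun f hf => ?_⟩
  · rcases hsplit T hT with h1 | ⟨T1, h1, rfl⟩
    · rcases hsplit T' hT' with h2 | ⟨T2, h2, rfl⟩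
      · rw [hW1 T h1, hW1 T' h2] at he
        exact hI.inj T h1 T' h2 he
      · rw [hW1 T h1, hW2 T2 h2] at he
        refine absurd ?_ (hD5 _ (hRm T h1) _ (hRm T2 h2))
        rw [he, add_sub_cancel_right]
    · rcases hsplit T' hT' with h2 | ⟨T2, h2, rfl⟩
      · rw [hW2 T1 h1, hW1 T' h2] at he
        refine absurd ?_ (hD5 _ (hRm T' h2) _ (hRm T1 h1))
        rw [← he, add_sub_cancel_right]
      · rw [hW2 T1 h1, hW2 T2 h2] at he
        rw [hI.inj T1 h1 T2 h2 (add_left_cancel he)]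
  · obtain ⟨v, hv⟩ := exists_lift (range n).powerset b f fun T _ => hf T
    obtain ⟨σ, hσ⟩ := exists_lift R bV (fun w => f (insert n (τ w))) fun w _ => by
      rw [hbV]
      exact hf _
    have hlarge : Large S ((A ∩ Pt U g n u (lift v)) ∩ Ev U g (U D) R (lift σ)) := by
      by_contra hcon
      apply hD4
      rw [hEX]
      simp only [Set.mem_iUnion]
      exact ⟨v, σ, hokD, hcon⟩
    refine hlarge.mono ?_
    rintro D' ⟨⟨a1, a2⟩, a3⟩
    refine ⟨a1, fun T hT hne h3 => ?_⟩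
    rcases hsplit T hT with h1 | ⟨T1, h1, rfl⟩
    · rw [hW1 T h1, a2 T h1 hne h3, hv T (mem_powerset.2 h1)]
    · rw [card_insert_of_notMem (hnr T1 h1)] at h3
      have hT1 : T1 ∈ QT := by
        rw [hQT]
        exact mem_filter.2 ⟨mem_powerset.2 h1, h3⟩
      have hwR : ∑ i ∈ T1, u i ∈ R := by
        rw [hRd]
        exact mem_image.2 ⟨T1, hT1, rfl⟩
      rw [hW2 T1 h1, a3 _ hwR, hσ _ hwR, hτ T1 hT1]

/-- the conditions on the next element -/
structure Next (S : ℕ → Finset α) (U : α → V) (g : V → ℕ) (A : Set α) (f b : Finset ℕ → ℕ)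
    (B : Finset V) (n : ℕ) (d : ℕ → α) (D : α) : Prop where
  mem : D ∈ A
  cls : ∃ X, D ∈ S X
  ne : ∀ i < n, d i ≠ D
  pat : ∀ T ⊆ range n, T.Nonempty → ¬ 3 ∣ T.card + 1 →
    g (U D + ∑ i ∈ T, U (d i)) = f (insert n T)
  bad : ∀ T ⊆ range n, U D + ∑ i ∈ T, U (d i) ∉ B
  inv : Inv S U g A b (n + 1) (Function.update (fun i => U (d i)) n (U D))

theorem Next.congr {A : Set α} {f b : Finset ℕ → ℕ} {B : Finset V} {n : ℕ} {d e : ℕ → α} {D : α}
    (h : Next S U g A f b B n d D) (hde : ∀ i < n, d i = e i) : Next S U g A f b B n e D := by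
  have hs : ∀ T ⊆ range n, ∑ i ∈ T, U (e i) = ∑ i ∈ T, U (d i) := fun T hT =>
    sum_congr rfl fun i hi => by rw [hde i (mem_range.1 (hT hi))]
  refine ⟨h.mem, h.cls, fun i hi => hde i hi ▸ h.ne i hi, fun T hT hne h3 => ?_, fun T hT => ?_, ?_⟩
  · rw [hs T hT]
    exact h.pat T hT hne h3
  · rw [hs T hT]
    exact h.bad T hT
  · refine h.inv.congr fun i hi => ?_
    rcases Nat.lt_succ_iff_lt_or_eq.1 hi with h1 | h1
    · rw [Function.update_of_ne h1.ne, Function.update_of_ne h1.ne, hde i h1]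
    · rw [h1, Function.update_self, Function.update_self]

theorem Law.exists_next (h : Law S U g ok p) (hW : OkW S U ok) {A : Set α} {b : Finset ℕ → ℕ} {n : ℕ} {d : ℕ → α}
    (hI : Inv S U g A b n fun i => U (d i)) (f : Finset ℕ → ℕ)
    (hf : ∀ (T : Finset ℕ) (k : ℕ), f (insert k T) ≤ b T) (B : Finset V) :
    ∃ D, Next S U g A f b B n d D := by
  have hfin : {D : α | (∃ X, D ∈ S X) ∧ U D ∈ (((B ×ˢ (range n).powerset).image fun q =>
      q.1 - ∑ i ∈ q.2, U (d i) : Finset V) : Set V)}.Finite := by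
    refine Set.Finite.of_injOn (f := U) (fun D hD => hD.2) ?_ (finite_toSet _)
    rintro D ⟨⟨X, hX⟩, -⟩ D' ⟨⟨X', hX'⟩, -⟩ he
    exact h.inj X X' D D' hX hX' he
  obtain ⟨D, h1, h2, h3, h4, h5⟩ := h.step hW hI (fun T => f (insert n T)) (fun T => hf T n)
    ((range n).image d ∪ hfin.toFinset)
  rw [mem_union, not_or, Set.Finite.mem_toFinset] at h3
  refine ⟨D, h1, h2, fun i hi he => h3.1 (mem_image.2 ⟨i, mem_range.2 hi, he⟩),
    fun T hT hne h6 => h4 T hT hne h6, fun T hT hB => h3.2 ⟨h2, ?_⟩, h5⟩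
  rw [mem_coe, mem_image]
  exact ⟨(U D + ∑ i ∈ T, U (d i), T), mem_product.2 ⟨hB, mem_powerset.2 hT⟩,
    add_sub_cancel_right _ _⟩

section seq

variable [Inhabited α]

/-- the sequence -/
noncomputable def dd (S : ℕ → Finset α) (U : α → V) (g : V → ℕ) (A : Set α)
    (f b : Finset ℕ → ℕ) (B : Finset V) (n : ℕ) : α :=
  if h : ∃ D, Next S U g A f b B n (ext n fun i : Fin n => dd S U g A f b B i) D then h.choose
  else default
termination_by n
decreasing_by all_goals exact i.2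

theorem Law.dd_inv (h : Law S U g ok p) (hW : OkW S U ok) {A : Set α} (hA : Large S A) (f b : Finset ℕ → ℕ)
    (hf : ∀ (T : Finset ℕ) (k : ℕ), f (insert k T) ≤ b T)
    (B : Finset V) (n : ℕ) : Inv S U g A b n (fun i => U (dd S U g A f b B i)) ∧
      Next S U g A f b B n (dd S U g A f b B) (dd S U g A f b B n) := by
  have key : ∀ n, Inv S U g A b n (fun i => U (dd S U g A f b B i)) →
      Next S U g A f b B n (dd S U g A f b B) (dd S U g A f b B n) := by
    intro n hI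
    have he : ∀ i < n, (ext n fun i : Fin n => dd S U g A f b B i) i = dd S U g A f b B i := by
      intro i hi
      unfold Run7.h460.JL.Uni.ext
      rw [dif_pos hi]
    have h1 : ∃ D, Next S U g A f b B n (ext n fun i : Fin n => dd S U g A f b B i) D :=
      h.exists_next hW (hI.congr fun i hi => by rw [he i hi]) f hf B
    have h2 : Next S U g A f b B n (ext n fun i : Fin n => dd S U g A f b B i)
        (dd S U g A f b B n) := by
      have h3 : dd S U g A f b B n = h1.choose := by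
        rw [dd, dif_pos h1]
      rw [h3]
      exact h1.choose_spec
    exact h2.congr he
  suffices hs : ∀ n, Inv S U g A b n (fun i => U (dd S U g A f b B i)) from
    ⟨hs n, key n (hs n)⟩
  intro n
  induction n with
  | zero =>
    refine ⟨fun i hi => absurd hi (Nat.not_lt_zero i), fun T hT T' hT' _ => ?_, fun f' _ => ?_⟩
    · rw [range_zero, subset_empty] at hT hT'
      rw [hT, hT']
    · refine hA.mono fun D hD => ⟨hD, fun T hT hne => ?_⟩
      rw [range_zero, subset_empty] at hT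
      exact absurd hne (hT ▸ not_nonempty_empty)
  | succ n ih =>
    refine (key n ih).inv.congr fun i _ => ?_
    by_cases h1 : i = n
    · rw [h1, Function.update_self]
    · rw [Function.update_of_ne h1]

/-- **Every set of positive upper density realises every function that is bounded in the last
variable.** -/
theorem Law.universal (h : Law S U g ok p) (hW : OkW S U ok) {A : Set α} (hA : Large S A) (f : Finset ℕ → ℕ)
    (hf : ∀ T : Finset ℕ, BddAbove (Set.range fun k : ℕ => f (insert k T)))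
    (B : Finset V) :
    ∃ d : ℕ → α, Function.Injective d ∧ (∀ i, d i ∈ A ∧ ∃ X, d i ∈ S X) ∧
      (∀ T : Finset ℕ, T.Nonempty → ∑ i ∈ T, U (d i) ∉ B) ∧
      ∀ T : Finset ℕ, 2 ≤ T.card → ¬ 3 ∣ T.card → g (∑ i ∈ T, U (d i)) = f T := by
  choose b hb using hf
  have hf' : ∀ (T : Finset ℕ) (k : ℕ), f (insert k T) ≤ b T := fun T k => hb T ⟨k, rfl⟩
  have hsub : ∀ (T : Finset ℕ) (hne : T.Nonempty), T.erase (T.max' hne) ⊆ range (T.max' hne) := by
    intro T hne i hi
    rw [mem_erase] at hi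
    have : i ≤ T.max' hne := le_max' T i hi.2
    exact mem_range.2 (by omega)
  refine ⟨dd S U g A f b B, ?_, fun i =>
    ⟨(h.dd_inv hW hA f b hf' B i).2.mem, (h.dd_inv hW hA f b hf' B i).2.cls⟩, fun T hne => ?_,
    fun T hT h3 => ?_⟩
  · intro i k hik
    by_contra hne
    rcases lt_or_gt_of_ne hne with h1 | h1
    · exact (h.dd_inv hW hA f b hf' B k).2.ne i h1 hik
    · exact (h.dd_inv hW hA f b hf' B i).2.ne k h1 hik.symm
  · have h1 := (h.dd_inv hW hA f b hf' B (T.max' hne)).2.bad (T.erase (T.max' hne)) (hsub T hne)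
    rw [← Finset.add_sum_erase T _ (max'_mem T hne)]
    exact h1
  · have hne : T.Nonempty := by
      rw [← card_pos]
      omega
    have hnT : T.max' hne ∈ T := max'_mem T hne
    have hne' : (T.erase (T.max' hne)).Nonempty := by
      rw [← card_pos, card_erase_of_mem hnT]
      omega
    have h1 := (h.dd_inv hW hA f b hf' B (T.max' hne)).2.pat (T.erase (T.max' hne)) (hsub T hne) hne'
      (by
        rw [card_erase_of_mem hnT]
        have : T.card - 1 + 1 = T.card := by omega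
        rw [this]
        exact h3)
    rw [insert_erase hnT] at h1
    rw [← Finset.add_sum_erase T _ hnT]
    exact h1

end seq

end Run7.h460.JR.UniR
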