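import Pool.Agent.Run7.h460.JR.CorR
import Pool.Agent.Run7.h460.JR.UniR
import Pool.Agent.Run7.h460.JL.Inst

/-!
# The law of the orders as an instance of the abstract law
-/

set_option autoImplicit false
set_option linter.unusedVariables false
set_option linter.unusedSectionVars false

open scoped Classical

namespace Run7.h460.JR

open Finset NumberField Filter
open Pool.Agent.Y692.QS (Ei w nr)
open Pool.Agent.Y703.CT (Dt pD)
open Pool.Agent.Y703.XL (cr)
open Pool.Agent.Y703.XL.Inf (killed SelInf sel_card sel_triv)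
open Pool.Agent.Y696.CTK (ED)
open Pool.Agent.XL6 (SelK KerV)
open Run7.h707.TC (dlt FamU FamO famO_iff)
open Run7.h460.JL
open Run7.h460.JL.Mix

section
variable {K : Type} [Field K] [NumberField K]

/-- `1` modulo `3`, of norm not `1` modulo `9` -/
def Good (x : 𝓞 K) : Prop := (3 : 𝓞 K) ∣ x - 1 ∧ ¬ (9 : ℤ) ∣ Algebra.norm ℤ x - 1

theorem Good.sc {x y : 𝓞 K} (h : Good y) (hs : SC x y) : Good x := by
  refine ⟨?_, fun h9 => h.2 ?_⟩
  · have := dvd_add hs.1 h.1
    rwa [sub_add_sub_cancel] at this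
  · have := dvd_sub h9 hs.2
    rwa [sub_sub_sub_cancel_left] at this

theorem pow_one_dvd {r : 𝓞 K} (h : (3 : 𝓞 K) ∣ r - 1) (n : ℕ) : (3 : 𝓞 K) ∣ r ^ n - 1 := by
  have h1 := sub_dvd_pow_sub_pow r 1 n
  rw [one_pow] at h1
  exact h.trans h1

theorem cn_congr {α : Type*} {T : Finset α} {A B : Set α} (h : ∀ a ∈ T, (a ∈ A ↔ a ∈ B)) :
    cn T A = cn T B := by
  unfold cn
  congr 2
  exact filter_congr h

variable (j : Ei ≃+* 𝓞 K) (hj : ∀ z : Ei, Algebra.norm ℤ (j z) = nr z)

include hj in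
/-- the form of a cube-free element of the class -/
theorem good_form {z : 𝓞 K} (hz : FamO z) (hg : Good z) :
    ∃ (J : Type) (_ : Fintype J) (_ : Nonempty J) (π : J → Ei) (e : J → ZMod 3) (c : Ei),
      Dt π e ∧ c ≠ 0 ∧ z = j (pD π e * c ^ 3) ∧ ¬ (9 : ℤ) ∣ nr (pD π e) - 1 := by
  obtain ⟨y, rfl⟩ := j.surjective z
  have hd : dlt (fun _ : Fin 1 => 1) (fun _ => y) = y := by
    unfold Run7.h707.TC.dlt
    rw [Fin.prod_univ_one, pow_one]
  obtain ⟨J, h1, h2, π, e, c, hD, hc, he, h9⟩ := form_A (fun _ : Fin 1 => 1) (a := fun _ => y)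
    (fun _ => (famO_iff j y).1 hz) (by
      rw [hd, ← dvd3 (j := j), map_one]
      exact hg.1) (by
      rw [hd, ← hj]
      exact hg.2)
  rw [hd] at he
  exact ⟨J, h1, h2, π, e, c, hD, hc, by rw [he], h9⟩

include j hj in
/-- all the facts on a cube-free element times a cube -/
theorem facts_of [IsCyclotomicExtension {3} ℚ K] {ω : K} (hω : ω ^ 2 + ω + 1 = 0) {x z c : 𝓞 K}
    (hz : FamO z) (hc : c ≠ 0) (hx : x = z * c ^ 3) (hgz : Good z) (hgx : Good x) :
    Facts ω x ∧ (killed ω (x : K)).ncard = (killed ω (z : K)).ncard := by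
  obtain ⟨J, h1, h2, π, e, y, hD, hy, he, h9⟩ := good_form j hj hz hgz
  obtain ⟨c', rfl⟩ := j.surjective c
  have hc' : c' ≠ 0 := fun h => hc (by rw [h, map_zero])
  have hE : ∀ D D' : 𝓞 K, D = D' → (SelK (D : K)).ncard = (SelK (D' : K)).ncard := by
    rintro D D' rfl
    rfl
  have hR : ∀ D D' : 𝓞 K, D = D' → Module.finrank ℤ (ED (D : K)).toAffine.Point =
      Module.finrank ℤ (ED (D' : K)).toAffine.Point := by
    rintro D D' rfl
    rfl
  have hx' : x = j (pD π e * (y * c') ^ 3) := by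
    rw [hx, he, ← map_pow, ← map_mul]
    congr 1
    ring
  obtain ⟨k1, k2⟩ := main_c (K := K) j hD h9 (mul_ne_zero hy hc')
  obtain ⟨l1, l2⟩ := main_c (K := K) j hD h9 hy
  obtain ⟨k, hk⟩ := Pool.Agent.R419.KL.ker_pow (π := π) (e := e)
  have key : ∀ D : 𝓞 K, Good D → (SelK (D : K)).ncard = 3 ^ (k + 1) →
      (∀ t : K, t ^ 3 ≠ (D : K)) ∧ (D : K) ≠ 0 ∧ (SelK (D : K)).ncard = 3 * (killed ω (D : K)).ncard ∧
        (killed ω (D : K)).ncard = 3 ^ k := by
    intro D hgD hS
    have hnc := nc_of j hj hgD.1 hgD.2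
    have hne : (D : K) ≠ 0 := by
      intro h
      exact hnc 0 (by rw [h, zero_pow three_ne_zero])
    have hsel := sel_card hne hω hnc
    have e2 : 3 * (killed ω (D : K)).ncard = 3 ^ (k + 1) := hsel.symm.trans hS
    rw [pow_succ'] at e2
    exact ⟨hnc, hne, hsel, Nat.eq_of_mul_eq_mul_left (by norm_num) e2⟩
  obtain ⟨a1, a2, a3, a4⟩ := key x hgx ((hE _ _ hx').trans (k1.trans hk))
  obtain ⟨-, -, -, b4⟩ := key z hgz ((hE _ _ he).trans (l1.trans hk))
  refine ⟨⟨a2, a1, a3, ⟨k, a4, ?_⟩, sel_triv a2 hω⟩, a4.trans b4.symm⟩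
  rw [hR _ _ hx']
  exact k2 k hk.le

/-- the exponent of the order of the kernel, as a function of the class modulo cubes -/
noncomputable def gg (ω : K) (v : VV K) : ℕ :=
  if h : ∃ z : 𝓞 K, FamO z ∧ UU z = v then Nat.log 3 (killed ω (h.choose : K)).ncard else 0

include j hj in
theorem gg_iff [IsCyclotomicExtension {3} ℚ K] {ω : K} (hω : ω ^ 2 + ω + 1 = 0) {x z c : 𝓞 K}
    (hz : FamO z) (hc : c ≠ 0) (hx : x = z * c ^ 3) (hgz : Good z) (hgx : Good x) (s : ℕ) :
    gg ω (UU x) = s ↔ (killed ω (x : K)).ncard = 3 ^ s := by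
  obtain ⟨hF, hk⟩ := facts_of j hj hω hz hc hx hgz hgx
  have h1 : ∃ y : 𝓞 K, FamO y ∧ UU y = UU x := by
    refine ⟨z, hz, ?_⟩
    rw [hx, UU_cube (famO_ne j hz) hc]
  have h2 : h1.choose = z := by
    refine UU_inj j h1.choose_spec.1 hz ?_
    rw [h1.choose_spec.2, hx, UU_cube (famO_ne j hz) hc]
  have h3 : gg ω (UU x) = Nat.log 3 (killed ω (x : K)).ncard := by
    unfold gg
    rw [dif_pos h1, hk]
    congr 1
    have hE : ∀ D D' : 𝓞 K, D = D' → (killed ω (D : K)).ncard = (killed ω (D' : K)).ncard := by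
      rintro D D' rfl
      rfl
    exact hE _ _ h2
  obtain ⟨k, h4, -⟩ := hF.rk
  rw [h3, h4, Nat.log_pow (by norm_num)]
  constructor
  · intro h
    rw [h]
  · intro h
    exact Nat.pow_right_injective (le_refl 2 |>.trans (by norm_num)) h

/-- the allowed classes modulo cubes -/
def OKR (r : 𝓞 K) (v : VV K) : Prop := ∃ b : 𝓞 K, FamO b ∧ UU b = v ∧ Good (b * r)

end

theorem cr_le_one (k : ℕ) : cr k ≤ 1 :=
  Pool.Agent.Y703.XL.cr_le Pool.Agent.Y703.XL.t_C9 k

/-- **The law.** -/
theorem lawG (K : Type) [Field K] [NumberField K] [IsCyclotomicExtension {3} ℚ K]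
    (j : Ei ≃+* 𝓞 K) (hj : ∀ z : Ei, Algebra.norm ℤ (j z) = nr z) {ω : K}
    (hω : ω ^ 2 + ω + 1 = 0) {r : 𝓞 K} (hr : FamO r) :
    UniR.Law (SX r) UU (gg ω) (OKR r) cr := by
  have hcard : ∀ X : ℕ, num X (InC (fun _ : Fin 1 => r)) = ((SX r X).card : ℝ) := by
    intro X
    have h2 := num_one j hj r X (fun _ => True)
    have e1 : (fun a => InC (fun _ : Fin 1 => r) a ∧ True) = InC (fun _ : Fin 1 => r) := by
      funext a
      simp
    rw [e1] at h2
    rw [h2]
    unfold cn
    simp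
  refine ⟨?_, Pool.Agent.R419.KL.prob_facts.1, cr_le_one, ?_, ?_⟩
  · -- the number of the elements
    obtain ⟨⟨C, X₀, hC, h2⟩, -⟩ := finJ K (m := 1) (q := 0) (fun t => t.elim0) (fun t => t.elim0)
      (fun t => t.elim0) (fun t => t.elim0) (fun t => t.elim0) (fun _ => r) (fun _ => hr)
      (fun t => t.elim0)
    have h3 : Tendsto (fun X : ℕ => C * (X : ℝ)) atTop atTop :=
      tendsto_natCast_atTop_atTop.const_mul_atTop hC
    refine tendsto_atTop_mono' _ ?_ h3
    filter_upwards [eventually_ge_atTop X₀] with X hX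
    have := h2 X hX
    rw [hcard, pow_one] at this
    exact this
  · intro X X' D D' hD hD' he
    rw [mem_SX j hj] at hD hD'
    exact UU_inj j hD.2.1 hD'.2.1 he
  · intro R s hR
    set eT := R.equivFin.symm with heT
    have hok : ∀ t : Fin R.card, OKR r (eT t : VV K) := fun t => hR _ (eT t).2
    choose b hb hbU hbg using hok
    have htw : ∀ (a : Fin 1 → 𝓞 K) t, tw b (fun _ _ => 1) a t = b t * a 0 := by
      intro a t
      unfold tw
      rw [Fin.prod_univ_one, pow_one]
    obtain ⟨-, h2, h4⟩ := finR K ω hω (m := 1) b (fun _ _ => 1) hb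
      (fun t => ⟨0, by norm_num⟩) (by
        rintro t t' htt ⟨f, hf, h3, x, hx⟩
        rcases hf with rfl | rfl
        · have := h3 0
          norm_num at this
        · have h5 := congrArg UU hx
          have hb0 := famO_ne j (hb t)
          have hb0' := famO_ne j (hb t')
          have hx0 : x ≠ 0 := by
            rintro rfl
            rw [zero_pow three_ne_zero] at hx
            exact (mul_ne_zero hb0 (pow_ne_zero 2 hb0')) hx
          rw [pow_two, UU_mul hb0 (mul_ne_zero hb0' hb0'), UU_mul hb0' hb0'] at h5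
          have h6 : UU (x ^ 3) = (0 : VV K) := by
            rw [pow_succ, pow_two, UU_mul (mul_ne_zero hx0 hx0) hx0, UU_mul hx0 hx0]
            exact UU_add3 _
          rw [h6] at h5
          have h7 := UU_add3 (UU (b t'))
          have h8 : UU (b t) = UU (b t') := by
            exact eq_of_three h5 h7
          rw [hbU, hbU] at h8
          exact htt (eT.injective (Subtype.ext h8)))
      (fun _ => r) (fun _ => hr) (fun t => by rw [htw]; exact (hbg t).1)
      (fun t => by rw [htw]; exact (hbg t).2)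
    have h5 := h2 fun t => s (eT t)
    have e1 : ∏ t, cr (s (eT t)) = ∏ v ∈ R, cr (s v) := by
      rw [← Finset.prod_coe_sort R fun v => cr (s v)]
      exact Fintype.prod_equiv eT _ _ fun t => rfl
    rw [e1] at h5
    refine h5.congr fun X => ?_
    rw [hcard, num_one j hj r X (fun a => ∀ t, (killed ω (tw b (fun _ _ => 1) a t : K)).ncard =
      3 ^ s (eT t))]
    congr 1
    refine cn_congr fun D hD => ?_
    rw [mem_SX j hj] at hD
    show (∀ t, (killed ω (tw b (fun _ _ => 1) (fun _ : Fin 1 => D) t : K)).ncard = 3 ^ s (eT t)) ↔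
      ∀ v ∈ R, gg ω (UU D + v) = s v
    have hkey : ∀ t, (killed ω (tw b (fun _ _ => 1) (fun _ : Fin 1 => D) t : K)).ncard =
        3 ^ s (eT t) ↔ gg ω (UU D + (eT t : VV K)) = s (eT t) := by
      intro t
      obtain ⟨z, c, hz, hc, hs, he⟩ := famO_mul' j hj (hb t) hD.2.1
      have hgx : Good (b t * D) := (hbg t).sc ((SC.refl (b t)).mul hD.2.2)
      have hgz : Good z := hgx.sc hs.symm
      have h6 := gg_iff j hj hω hz hc he hgz hgx (s (eT t))
      have hE : ∀ x y : 𝓞 K, x = y → (killed ω (x : K)).ncard = (killed ω (y : K)).ncard := by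
        rintro x y rfl
        rfl
      have e2 : (eT t : VV K) + UU D = UU D + (eT t : VV K) := add_comm (eT t : VV K) (UU D)
      rw [hE _ _ (htw (fun _ => D) t), ← h6, UU_mul (famO_ne j (hb t)) (famO_ne j hD.2.1), hbU]
      exact Eq.congr_left (congrArg (gg ω) e2)
    constructor
    · intro h v hv
      have h6 := (hkey (eT.symm ⟨v, hv⟩)).1 (h _)
      rw [Equiv.apply_symm_apply] at h6
      exact h6
    · intro h t
      exact (hkey t).2 (h _ (eT t).2)

/-- the sums of the classes of the elements of the class of `r` -/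
theorem okW (K : Type) [Field K] [NumberField K] [IsCyclotomicExtension {3} ℚ K]
    (j : Ei ≃+* 𝓞 K) (hj : ∀ z : Ei, Algebra.norm ℤ (j z) = nr z) {r : 𝓞 K} (hr : FamO r)
    (h1 : Good r) : UniR.OkW (SX r) UU (OKR r) := by
  have hone : ¬ IsOne r := fun h => h1.2 h.2
  intro T u hu h3
  choose! X D hD hU using hu
  have hDf : ∀ i ∈ T, FamO (D i) := fun i hi => ((mem_SX j hj).1 (hD i hi)).2.1
  obtain ⟨z, c, hz, hc, hs, he⟩ := famO_prod j hj T D hDf
  refine ⟨z, hz, ?_, ?_⟩
  · have h4 : ∀ S ⊆ T, UU (∏ i ∈ S, D i) = ∑ i ∈ S, u i := by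
      intro S hS
      induction S using Finset.induction_on with
      | empty =>
        rw [prod_empty, sum_empty, UU_of one_ne_zero]
        apply Additive.toMul.injective
        rw [toMul_ofMul, toMul_zero]
        have e : Units.mk0 ((1 : 𝓞 K) : K) (coe_ne one_ne_zero) = 1 := by
          apply Units.ext
          show ((1 : 𝓞 K) : K) = 1
          rfl
        rw [e]
        rfl
      | insert a S ha ih =>
        have h5 : ∏ i ∈ S, D i ≠ 0 := prod_ne_zero_iff.2 fun i hi =>
          famO_ne j (hDf i (hS (mem_insert_of_mem hi)))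
        rw [prod_insert ha, sum_insert ha,
          UU_mul (famO_ne j (hDf a (hS (mem_insert_self a S)))) h5,
          ih fun i hi => hS (mem_insert_of_mem hi), hU a (hS (mem_insert_self a S))]
    rw [← h4 T subset_rfl, he, UU_cube (famO_ne j hz) hc]
  · have h4 : ∀ S ⊆ T, SC (∏ i ∈ S, D i) (r ^ S.card) := by
      intro S hS
      induction S using Finset.induction_on with
      | empty =>
        rw [prod_empty, card_empty, pow_zero]
        exact SC.refl (1 : 𝓞 K)
      | insert a S ha ih =>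
        rw [prod_insert ha, card_insert_of_notMem ha, pow_succ, mul_comm (r ^ S.card)]
        exact ((mem_SX j hj).1 (hD a (hS (mem_insert_self a S)))).2.2.mul
          (ih fun i hi => hS (mem_insert_of_mem hi))
    have h5 : SC (z * r) (r ^ (T.card + 1)) := by
      rw [pow_succ]
      exact (hs.symm.trans (h4 T subset_rfl)).mul (SC.refl r)
    refine Good.sc ⟨?_, fun h9 => ?_⟩ h5
    · exact pow_one_dvd h1.1 (T.card + 1)
    · exact not_isOne_pow j hj hr hone h3 ⟨pow_one_dvd h1.1 (T.card + 1), h9⟩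

end Run7.h460.JR
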