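import Pool.Agent.Run7.h460.JL.LawQ
import Pool.Agent.Run7.h460.JR.CritR

/-!
# The joint law of the orders of the Selmer groups, for tuples in the classes modulo nine

The statement of `Run7/h460/JL/LawQ.lean` for the exact orders of the Selmer groups instead of their
triviality: by the criterion `gt_iffR` the order is a power of three whose exponent is the dimension of
the kernel of the matrix. The proof is the one of the other file, after `Run7/h707/TF/Law.lean` of
helper707.
-/

set_option autoImplicit false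
set_option linter.unusedVariables false
set_option linter.unusedSectionVars false

open scoped Classical

namespace Run7.h460.JR

open Finset Filter
open NumberField
open Pool.Agent.Y692.QS (Ei w nr)
open Pool.Agent.Y715.T.RecG (Pq)
open Pool.Agent.Y699.E (ez nrm nrm_cast nrm_mul prm mem_ZB ZB prm_ne_zero prm_mul prm_one prm_prod)
open Pool.Agent.Y433.XK (pN pN_pos)
open Pool.Agent.Y703.XK (c9 S_LOW SS S_EQ S_BIL sm la bl)
open Pool.Agent.Y703.XL (cr)
open Pool.Agent.XL6 (SelK)
open Pool.Agent.R419.KF (wt wt_one wt_ne el el_ne el_prm el_inj cf_el ex_pair SG mem_SG)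
open Pool.Agent.N883.FF (nq ClP w_pow_inj isUnit_w nr_w_mul)
open Pool.Agent.N883.FF.Den3 (CF small nq_mul nq_zero)
open Pool.Agent.XLK (ph fcc ky)
open Q283.T3 (gi cf)
open Q283.T3A (c_bounds)
open Run7.h707.TC (Tt mem_Tt dlt elw UC NEc uc_iff dlt_eq tt_pq eT ee Uu FamU w_red pow_prm TP mem_TP
  kyT IjT KyP YM CT CT_congr GT gt_iff nec_iff norm_key c_val cnt_eq)
open Run7.h707.TD
open Run7.h707.TF
open Run7.h460.JL

section
variable {m q Mt : ℕ} (n : Fin Mt → Fin (m + q) → ℕ) (pb : Fin q → ZMod 3 × Ei)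
  (Q : (Fin m → ZMod 3 × ZMod 3) → Prop)

/-- **The joint law of the orders for the tuples in the classes given by `Q`, with fixed factors.** -/
theorem lawR {K : Type} [Field K] [NumberField K] (j : Ei ≃+* 𝓞 K) (hpb : ∀ l, ClP (pb l).2)
    (r : Fin Mt → ℕ)
    (hQ : ∀ u : Fin m → ZMod 3 × ZMod 3, Q u → ∀ t, ∑ k, (n t k : ZMod 3) *
      Fin.append (fun k => (u k).1) (fun l => (pb l).1) k = 0)
    (hn : ∀ t, ∃ k : Fin m, (n t (Fin.castAdd q k) : ZMod 3) ≠ 0)
    (hsep : ∀ t t', t ≠ t' → ∀ e : ℕ, (e = 1 ∨ e = 2) →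
      (∀ k : Fin m, (n t (Fin.castAdd q k) : ZMod 3) + e * n t' (Fin.castAdd q k) = 0) →
      ¬ ∃ x, dlt (fun l => n t (Fin.natAdd m l) + e * n t' (Fin.natAdd m l))
        (fun l => ew (pb l)) = x ^ 3) :
    Tendsto (fun X : ℕ => ({a : Fin m → Ei | (∀ k, nr (a k) ≤ X ∧ FamU (a k)) ∧
      ((CQ Q a ∧ ∀ t, NEc (dlt (n t) (Fin.append a fun l => ew (pb l)))) ∧
      ∀ t, (SelK (j (dlt (n t) (Fin.append a fun l => ew (pb l))) : K)).ncard = 3 ^ (r t + 1))}.ncard : ℝ) / (AT m X : ℝ))
      atTop (nhds (kapQ n Q (fun l => cls (pb l)) * (∏ t, cr (r t)))) := by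
  have hg : (∏ t : Fin Mt, gi * cf (r t)) = (∏ t, cr (r t)) :=
    prod_congr rfl fun t _ => Q283.T3.c_eq Pool.Agent.Y703.XL.t_LIM (r t)
  have hgb := c_bounds (M := Mt) r
  rw [hg] at hgb
  obtain ⟨c, X₀, hc, hlow⟩ := AT_low (m := m)
  -- the sets of the fixed elements
  have hexb : ∃ Mb Sb : Fin q → Finset Ei, ∀ l, (∀ π ∈ Sb l, Pq π) ∧ Mb l ⊆ Sb l ∧
      (pb l).2 = el (Mb l) (Sb l) := by
    choose Mb Sb hMS using fun l => ex_pair (hpb l).1
      ⟨prm_ne_zero (hpb l).1, fun x hx => (hpb l).2 x hx⟩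
    exact ⟨Mb, Sb, hMS⟩
  obtain ⟨Mb, Sb, hMS⟩ := hexb
  have hSb : ∀ l, ∀ u ∈ Sb l, Pq u := fun l => (hMS l).1
  have hMb : ∀ l, Mb l ⊆ Sb l := fun l => (hMS l).2.1
  obtain ⟨ib, hib⟩ : ∃ ib : Fin q → ZMod 3, ib = fun l => (pb l).1 := ⟨_, rfl⟩
  have hb : (fun l => ew (pb l)) = fun l => elw (ib l) (Mb l) (Sb l) := by
    funext l
    unfold ew elw
    rw [(hMS l).2.2, hib]
  -- the errors
  have hlim : Tendsto (fun X : ℕ => ({a : Fin m → Ei | (∀ k, nr (a k) ≤ X ∧ FamU (a k)) ∧
      ((CQ Q a ∧ ∀ t, NEc (dlt (n t) (Fin.append a fun l => ew (pb l)))) ∧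
      ∀ t, (SelK (j (dlt (n t) (Fin.append a fun l => ew (pb l))) : K)).ncard = 3 ^ (r t + 1))}.ncard : ℝ) / (AT m X : ℝ) -
      (∏ t, cr (r t)) * ((NQ n pb Q X : ℝ) / (AT m X : ℝ))) atTop (nhds 0) := by
    rcases Nat.eq_zero_or_pos Mt with h0 | h0
    · subst h0
      have : ∀ X : ℕ, ({a : Fin m → Ei | (∀ k, nr (a k) ≤ X ∧ FamU (a k)) ∧
          ((CQ Q a ∧ ∀ t, NEc (dlt (n t) (Fin.append a fun l => ew (pb l)))) ∧
          ∀ t, (SelK (j (dlt (n t) (Fin.append a fun l => ew (pb l))) : K)).ncard = 3 ^ (r t + 1))}.ncard : ℝ) =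
          NQ n pb Q X := by
        intro X
        unfold NQ
        congr 2
        ext a
        simp
      simp only [this, univ_eq_empty, prod_empty, one_mul, sub_self]
      exact tendsto_const_nhds
    · have hm1 : 1 ≤ m := by
        obtain ⟨k, -⟩ := hn ⟨0, h0⟩
        have := k.2
        omega
      -- the leading indices
      have hex : ∀ t, ∃ l : Fin m, (n t (Fin.castAdd q l) : ZMod 3) ≠ 0 ∧
          ∀ k, k < l → (n t (Fin.castAdd q k) : ZMod 3) = 0 := by
        intro t
        have hne : (univ.filter fun k : Fin m => (n t (Fin.castAdd q k) : ZMod 3) ≠ 0).Nonempty := by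
          obtain ⟨k, hk⟩ := hn t
          exact ⟨k, mem_filter.2 ⟨mem_univ _, hk⟩⟩
        refine ⟨(univ.filter fun k : Fin m => (n t (Fin.castAdd q k) : ZMod 3) ≠ 0).min' hne,
          (mem_filter.1 (min'_mem _ hne)).2, fun k hk => ?_⟩
        by_contra h
        exact absurd hk (not_lt.2 (min'_le _ k (mem_filter.2 ⟨mem_univ _, h⟩)))
      choose ld hld hld0 using hex
      have hsep' : ∀ i : Fin m → ZMod 3, ∀ t t', t ≠ t' → ld t = ld t' →
          (∃ k, (n t (Fin.castAdd q k) : ZMod 3) * (n t (Fin.castAdd q (ld t)) : ZMod 3) ≠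
            (n t' (Fin.castAdd q k) : ZMod 3) * (n t' (Fin.castAdd q (ld t')) : ZMod 3)) ∨
          (∃ u ∈ Tt Sb, ee Mb (fun l => (n t (Fin.natAdd m l) : ZMod 3)) Sb u *
              (n t (Fin.castAdd q (ld t)) : ZMod 3) ≠
            ee Mb (fun l => (n t' (Fin.natAdd m l) : ZMod 3)) Sb u *
              (n t' (Fin.castAdd q (ld t')) : ZMod 3)) ∨
          (∑ k, (n t k : ZMod 3) * Fin.append i ib k) * (n t (Fin.castAdd q (ld t)) : ZMod 3) ≠
            (∑ k, (n t' k : ZMod 3) * Fin.append i ib k) *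
              (n t' (Fin.castAdd q (ld t')) : ZMod 3) := by
        intro i t t' htt hl
        by_contra hall
        rw [not_or, not_or] at hall
        obtain ⟨hk, hu, hy⟩ := hall
        push Not at hk hu hy
        have ha := hld t
        have hb' := hld t'
        obtain ⟨x, hx⟩ : ∃ x : ZMod 3, x = (n t (Fin.castAdd q (ld t)) : ZMod 3) := ⟨_, rfl⟩
        obtain ⟨x', hx'⟩ : ∃ x : ZMod 3, x = (n t' (Fin.castAdd q (ld t')) : ZMod 3) := ⟨_, rfl⟩
        rw [← hx] at ha hk hu hy
        rw [← hx'] at hb' hk hu hy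
        have hx2 : x * x = 1 := by
          have : ∀ x : ZMod 3, x ≠ 0 → x * x = 1 := by decide
          exact this x ha
        -- the sign
        obtain ⟨e, he, hex⟩ : ∃ e : ℕ, (e = 1 ∨ e = 2) ∧ (e : ZMod 3) = -(x * x') := by
          have : ∀ x x' : ZMod 3, x ≠ 0 → x' ≠ 0 → -(x * x') = 1 ∨ -(x * x') = 2 := by decide
          rcases this x x' ha hb' with h | h
          · exact ⟨1, Or.inl rfl, by rw [h]; norm_num⟩
          · exact ⟨2, Or.inr rfl, by rw [h]; norm_num⟩
        have hlin : ∀ A B : ZMod 3, A * x = B * x' → A + e * B = 0 := by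
          intro A B h
          rw [hex]
          linear_combination (-A) * hx2 + x * h
        refine hsep t t' htt e he (fun k => hlin _ _ (hk k)) ?_
        rw [hb]
        refine cube_of hMb hSb ?_ ?_
        · intro u
          by_cases huT : u ∈ Tt Sb
          · have h1 := hlin _ _ (hu u huT)
            unfold eT
            rw [← h1]
            unfold ee
            rw [mul_sum, ← sum_add_distrib]
            refine sum_congr rfl fun l _ => ?_
            push_cast
            ring
          · unfold eT ee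
            refine Finset.sum_eq_zero fun k _ => ?_
            rw [if_neg (fun h => huT (mem_Tt.2 ⟨k, h⟩)), mul_zero]
        · have h1 := hlin _ _ hy
          have h2 : ∑ k : Fin m, (n t (Fin.castAdd q k) : ZMod 3) * i k +
              e * ∑ k : Fin m, (n t' (Fin.castAdd q k) : ZMod 3) * i k = 0 := by
            rw [mul_sum, ← sum_add_distrib]
            refine sum_eq_zero fun k _ => ?_
            have h3 := hlin _ _ (hk k)
            linear_combination (i k) * h3
          rw [Fin.sum_univ_add, Fin.sum_univ_add] at h1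
          simp only [Fin.append_left, Fin.append_right] at h1
          have h3 : ∑ l, ((n t (Fin.natAdd m l) + e * n t' (Fin.natAdd m l) : ℕ) : ZMod 3) * ib l =
              ∑ l, (n t (Fin.natAdd m l) : ZMod 3) * ib l +
                e * ∑ l, (n t' (Fin.natAdd m l) : ZMod 3) * ib l := by
            rw [mul_sum, ← sum_add_distrib]
            refine sum_congr rfl fun l _ => ?_
            push_cast
            ring
          rw [h3]
          linear_combination h1 - h2
      rw [Metric.tendsto_nhds]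
      intro ε hε
      obtain ⟨z₀, hz₀⟩ : ∃ z₀ : ℕ, ∀ l, ∀ u ∈ Sb l, nrm u ≤ z₀ :=
        ⟨univ.sup fun l => (Sb l).sup nrm, fun l u hu => (Finset.le_sup (f := nrm) hu).trans
          (Finset.le_sup (f := fun l => (Sb l).sup nrm) (mem_univ l))⟩
      have herr : ∀ i : Fin m → ZMod 3, ∀ᶠ X : ℕ in atTop,
          |(CT (fun M S => ((CQ Q fun k => elw (i k) (M k) (S k)) ∧ ∀ t, NEc (dlt (n t) fun k =>
            elw (Fin.append i ib k) (Fin.append M Mb k) (Fin.append S Sb k))) ∧
            GT (Fin.append M Mb) (fun t k => (n t k : ZMod 3))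
              (fun t => ∑ k, (n t k : ZMod 3) * Fin.append i ib k)
              r (Fin.append S Sb)) X : ℝ) -
            (∏ t, cr (r t)) * (CT (fun M S => (CQ Q fun k => elw (i k) (M k) (S k)) ∧
            ∀ t, NEc (dlt (n t) fun k => elw (Fin.append i ib k)
            (Fin.append M Mb k) (Fin.append S Sb k))) X : ℝ)| ≤
          (c * ε / (2 * 3 ^ m)) * (X : ℝ) ^ m := by
        intro i
        have h := errN Pool.Agent.Y363.XK.t_BIL hm1 (Tt Sb)
          (fun M S => GT (Fin.append M Mb) (fun t k => (n t k : ZMod 3))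
              (fun t => ∑ k, (n t k : ZMod 3) * Fin.append i ib k)
              r (Fin.append S Sb)) ((∏ t, cr (r t))) hgb
          (fun M hMq η hη => by
            obtain ⟨R, hR⟩ := t_BXF Pool.Agent.Y710.XK.t_EQ (fun t k => (n t k : ZMod 3)) ld hld
              hld0 Mb Sb hMb hSb (fun t => ∑ k, (n t k : ZMod 3) * Fin.append i ib k) (hsep' i)
              r η hη
            have h1 := hR M
            rw [hg] at h1
            exact ⟨R + 4 * (Tt Sb).card, NdS R, h1, badF m R (Tt Sb) (tt_pq hSb)⟩)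
          z₀ (fun M S => (CQ Q fun k => elw (i k) (M k) (S k)) ∧ ∀ t, NEc (dlt (n t) fun k =>
            elw (Fin.append i ib k) (Fin.append M Mb k) (Fin.append S Sb k)))
          (fun M => by
            have h1 := kyw_of_kyp (P := fun S => ∀ t, NEc (dlt (n t) fun k =>
              elw (Fin.append i ib k) (Fin.append M Mb k) (S k)))
              (kyp_nec' n (Fin.append i ib) (Fin.append M Mb)) hz₀ hMb hSb
            have h2 := kyp_Q Q i M
            intro z H hz hH hMz S S' hS hS' hM hM' hj hj' hk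
            exact and_congr (h2 z H hH hMz S S' hS hS' hM hM' hj hj' hk)
              (h1 z H hz hH hMz S S' hS hS' hM hM' hj hj' hk))
          (c * ε / (2 * 3 ^ m)) (by positivity)
        exact h
      filter_upwards [eventually_all.2 herr, eventually_ge_atTop (max X₀ 1)] with X hX hX0
      have hlo := hlow X ((le_max_left _ _).trans hX0)
      have hX1 : (0 : ℝ) < X := by exact_mod_cast (le_max_right _ _).trans hX0
      have hN : (0 : ℝ) < AT m X := lt_of_lt_of_le (by positivity) hlo
      have e1 : {a : Fin m → Ei | (∀ k, nr (a k) ≤ X ∧ FamU (a k)) ∧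
          ((CQ Q a ∧ ∀ t, NEc (dlt (n t) (Fin.append a fun l => ew (pb l)))) ∧
          ∀ t, (SelK (j (dlt (n t) (Fin.append a fun l => ew (pb l))) : K)).ncard = 3 ^ (r t + 1))}.ncard =
          ∑ i : Fin m → ZMod 3,
            CT (fun M S => ((CQ Q fun k => elw (i k) (M k) (S k)) ∧ ∀ t, NEc (dlt (n t) fun k =>
            elw (Fin.append i ib k) (Fin.append M Mb k) (Fin.append S Sb k))) ∧
            GT (Fin.append M Mb) (fun t k => (n t k : ZMod 3))
              (fun t => ∑ k, (n t k : ZMod 3) * Fin.append i ib k)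
              r (Fin.append S Sb)) X := by
        rw [cnt_eq m X fun a => (CQ Q a ∧ ∀ t, NEc (dlt (n t) (Fin.append a fun l => ew (pb l)))) ∧
          ∀ t, (SelK (j (dlt (n t) (Fin.append a fun l => ew (pb l))) : K)).ncard = 3 ^ (r t + 1)]
        refine Finset.sum_congr rfl fun i _ => ?_
        refine CT_congr fun M S hS => ?_
        rw [mem_TP] at hS
        rw [hb, append_elw]
        refine and_congr_right fun hne => ?_
        exact (gt_iffR j n (Fin.append i ib) (append_sub (fun k => (hS k).2.2) hMb)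
          (append_all (P := fun s : Finset Ei => ∀ u ∈ s, Pq u) (fun k => (hS k).1) hSb)
          hne.2 (by
            have h7 := (cq_elw i (fun k => (hS k).2.2) (fun k => (hS k).1)).1 hne.1
            intro t
            rw [hib]
            exact hQ _ h7 t) r).symm
      have e2 : NQ n pb Q X = ∑ i : Fin m → ZMod 3,
          CT (fun M S => (CQ Q fun k => elw (i k) (M k) (S k)) ∧ ∀ t, NEc (dlt (n t) fun k =>
            elw (Fin.append i ib k) (Fin.append M Mb k) (Fin.append S Sb k))) X := by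
        unfold NQ
        rw [cnt_eq m X fun a => CQ Q a ∧ ∀ t, NEc (dlt (n t) (Fin.append a fun l => ew (pb l)))]
        refine Finset.sum_congr rfl fun i _ => ?_
        refine CT_congr fun M S hS => ?_
        rw [hb, append_elw]
      rw [Real.dist_eq, sub_zero]
      have e3 : ({a : Fin m → Ei | (∀ k, nr (a k) ≤ X ∧ FamU (a k)) ∧
          ((CQ Q a ∧ ∀ t, NEc (dlt (n t) (Fin.append a fun l => ew (pb l)))) ∧
          ∀ t, (SelK (j (dlt (n t) (Fin.append a fun l => ew (pb l))) : K)).ncard = 3 ^ (r t + 1))}.ncard : ℝ) /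
            (AT m X : ℝ) - (∏ t, cr (r t)) * ((NQ n pb Q X : ℝ) / (AT m X : ℝ)) =
          (({a : Fin m → Ei | (∀ k, nr (a k) ≤ X ∧ FamU (a k)) ∧
          ((CQ Q a ∧ ∀ t, NEc (dlt (n t) (Fin.append a fun l => ew (pb l)))) ∧
          ∀ t, (SelK (j (dlt (n t) (Fin.append a fun l => ew (pb l))) : K)).ncard = 3 ^ (r t + 1))}.ncard : ℝ) -
            (∏ t, cr (r t)) * (NQ n pb Q X : ℝ)) / (AT m X : ℝ) := by
        field_simp
      rw [e3, abs_div, abs_of_pos hN, div_lt_iff₀ hN, e1, e2]
      push_cast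
      rw [Finset.mul_sum, ← Finset.sum_sub_distrib]
      refine lt_of_le_of_lt ((Finset.abs_sum_le_sum_abs _ _).trans
        (Finset.sum_le_sum fun i _ => hX i)) ?_
      rw [Finset.sum_const, Finset.card_univ, Fintype.card_fun, ZMod.card, Fintype.card_fin,
        nsmul_eq_mul]
      push_cast
      have e4 : (3 : ℝ) ^ m * (c * ε / (2 * 3 ^ m) * (X : ℝ) ^ m) =
          ε / 2 * (c * (X : ℝ) ^ m) := by
        field_simp
      rw [e4]
      calc ε / 2 * (c * (X : ℝ) ^ m) ≤ ε / 2 * (AT m X : ℝ) := by gcongr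
        _ < ε * (AT m X : ℝ) := by
          apply mul_lt_mul_of_pos_right _ hN
          linarith
  have h1 := hlim.add ((NQ_lim n pb Q hpb hn).const_mul ((∏ t, cr (r t))))
  rw [zero_add, mul_comm ((∏ t, cr (r t)))] at h1
  refine h1.congr fun X => ?_
  ring

end

end Run7.h460.JR
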