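import Pool.Agent.Run7.h460.JR.LawR
import Pool.Agent.Run7.h460.JL.Mono

/-!
# The joint law of the orders for monomials with coefficients in a class modulo nine
-/

set_option autoImplicit false
set_option linter.unusedVariables false
set_option linter.unusedSectionVars false

open scoped Classical

namespace Run7.h460.JR

open Finset Filter
open NumberField
open Pool.Agent.Y692.QS (Ei w nr)
open Pool.Agent.Y699.E (nrm prm prm_ne_zero prm_mul prm_one)
open Pool.Agent.Y703.XL (cr)
open Pool.Agent.XL6 (SelK)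
open Pool.Agent.N883.FF (nq ClP w_pow_inj isUnit_w nr_w_mul)
open Pool.Agent.N883.FF.Den3 (CF)
open Pool.Agent.XLK (fcc)
open Run7.h707.TC (dlt UC NEc FamU)
open Run7.h707.TD
open Run7.h707.TF
open Run7.h460.JL

section
variable {m q : ℕ} (e : Fin q → Fin m → ℕ)

section law
variable {K : Type} [Field K] [NumberField K] (j : Ei ≃+* 𝓞 K) {pb : Fin q → ZMod 3 × Ei}
  (hpb : ∀ l, ClP (pb l).2) (he : ∀ t, ∃ k, (e t k : ZMod 3) ≠ 0)
  (hsep : ∀ t t', t ≠ t' → ∀ f : ℕ, (f = 1 ∨ f = 2) →
  (∀ k, (e t k : ZMod 3) + f * e t' k = 0) → ¬ ∃ x : Ei, ew (pb t) * ew (pb t') ^ f = x ^ 3)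
  {u : Fin m → ZMod 3 × ZMod 3} (hu : ∀ t, ∑ k, e t k • u k + cls (pb t) ≠ 0)
  (hu1 : ∀ t, (∑ k, e t k • u k + cls (pb t)).1 = 0)

theorem fst_sum {ι : Type} (s : Finset ι) (f : ι → ZMod 3 × ZMod 3) :
    (∑ k ∈ s, f k).1 = ∑ k ∈ s, (f k).1 := by
  induction s using Finset.induction_on with
  | empty => rfl
  | insert a s ha ih =>
    rw [sum_insert ha, sum_insert ha, ← ih]
    rfl

include hpb he hsep hu hu1 in
/-- **The law of the orders in one class.** -/
theorem law_R (s : Fin q → ℕ) :
    DL (SA m) (NA m) (fun a => CQ (fun u' => u' = u) a ∧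
      ∀ t, (SelK (j (dlt (e t) a * ew (pb t)) : K)).ncard = 3 ^ (s t + 1))
      (1 / 9 ^ m * ∏ t, cr (s t)) := by
  have h := lawR (fun t : Fin q => nnq e t) pb (fun u' => u' = u) j hpb s
    (fun u' hu' t => by
      subst hu'
      have h1 := hu1 t
      have h2 : (∑ k, e t k • u' k + cls (pb t)).1 =
          (∑ k, e t k • u' k).1 + (cls (pb t)).1 := rfl
      rw [h2, fst_sum] at h1
      rw [Fin.sum_univ_add]
      simp only [nn_left, nn_right, Fin.append_left, Fin.append_right]
      have h3 : ∑ l, (((Pi.single t 1 : Fin q → ℕ) l : ℕ) : ZMod 3) * (pb l).1 = (pb t).1 := by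
        rw [Finset.sum_eq_single t]
        · rw [Pi.single_eq_same, Nat.cast_one, one_mul]
        · intro l _ hl
          rw [Pi.single_eq_of_ne hl, Nat.cast_zero, zero_mul]
        · intro h
          exact absurd (mem_univ _) h
      rw [h3, ← h1]
      congr 1
      refine sum_congr rfl fun k _ => ?_
      show _ = (e t k • u' k).1
      rw [← nsmul_eq_mul]
      rfl)
    (fun t => by
      obtain ⟨k, hk⟩ := he t
      exact ⟨k, by rw [nn_left]; exact hk⟩)
    (fun s s' hss f hf hk => by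
      rw [dlt_pair]
      refine hsep _ _ hss f hf fun k => ?_
      have := hk k
      rw [nn_left, nn_left] at this
      exact this)
  have hk : kapQ (fun t : Fin q => nnq e t) (fun u' => u' = u)
      (fun l => cls (pb l)) = 1 / 9 ^ m := by
    unfold kapQ
    beta_reduce
    congr 1
    have : (univ.filter fun u' : Fin m → ZMod 3 × ZMod 3 => u' = u ∧ ∀ s : Fin q,
        ∑ k, nnq e s (Fin.castAdd q k) • u' k +
          ∑ l, nnq e s (Fin.natAdd m l) • cls (pb l) ≠ 0) = {u} := by
      ext u'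
      rw [mem_filter, mem_singleton]
      constructor
      · rintro ⟨-, h1, -⟩
        exact h1
      · rintro rfl
        refine ⟨mem_univ _, rfl, fun s => ?_⟩
        simp only [nn_left, nn_right]
        rw [sum_single_smul (fun l => cls (pb l))]
        exact hu _
    have h2 := congrArg (fun F : Finset (Fin m → ZMod 3 × ZMod 3) => (F.card : ℝ)) this
    beta_reduce at h2
    rw [card_singleton, Nat.cast_one] at h2
    exact (congrArg Nat.cast (fcc fun _ _ => Iff.rfl)).trans h2
  rw [hk] at h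
  have h1 : DL (SA m) (NA m) (fun a => (CQ (fun u' => u' = u) a ∧
      ∀ t : Fin q, NEc (dlt (nnq e t) (Fin.append a fun l => ew (pb l)))) ∧
      ∀ t : Fin q, (SelK (j (dlt (nnq e t) (Fin.append a fun l => ew (pb l))) : K)).ncard =
        3 ^ (s t + 1))
      (1 / 9 ^ m * ∏ t, cr (s t)) := h
  refine h1.of_zero (SA_fin m) (NA_nonneg m) (uc_zero e hpb he) fun X a ha hz => ?_
  push Not at hz
  have hD : ∀ D D' : Ei, D = D' → (SelK (j D : K)).ncard = (SelK (j D' : K)).ncard := by
    rintro D D' rfl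
    rfl
  have hd := fun t : Fin q => hD _ _ (dlt_nn e t a fun l => ew (pb l))
  constructor
  · rintro ⟨⟨h2, -⟩, h3⟩
    exact ⟨h2, fun t => (hd t).symm.trans (h3 t)⟩
  · rintro ⟨h2, h3⟩
    refine ⟨⟨h2, fun s => ?_⟩, fun t => (hd t).trans (h3 t)⟩
    rw [dlt_nn]
    exact nec_of e hpb hu ha h2 _ (hz _)

end law

end

end Run7.h460.JR
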